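import Pool.Agent.Lib.MP_2a9019_an.Z2

/-!
Basic facts on `bestDist` and `worstDist`.
-/

namespace Pool.Agent.Lib.MP_2a9019_an

open Real Set Metric

theorem bestDist_bddBelow (n : ℕ) (F : Set (ℝ × ℝ)) :
    BddBelow {r : ℝ | ∃ γ ∈ TrigCurves n, r = hausdorffDist F γ} :=
  ⟨0, by rintro r ⟨γ, _, rfl⟩; exact hausdorffDist_nonneg⟩

theorem trigCurves_nonempty (n : ℕ) (p : ℝ × ℝ) : {p} ∈ TrigCurves n := by
  refine ⟨fun _ => p.1, TrigPoly_const n _, fun _ => p.2, TrigPoly_const n _, ?_⟩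
  ext q
  constructor
  · rintro rfl
    exact ⟨0, ⟨le_rfl, by positivity⟩, rfl⟩
  · rintro ⟨t, _, rfl⟩
    rfl

theorem bestDist_le_of {n : ℕ} {F : Set (ℝ × ℝ)} {γ : Set (ℝ × ℝ)} (hγ : γ ∈ TrigCurves n) {r : ℝ}
    (h : hausdorffDist F γ ≤ r) : bestDist n F ≤ r :=
  (csInf_le (bestDist_bddBelow n F) ⟨γ, hγ, rfl⟩).trans h

theorem bestDist_le_diam {a b : ℝ} {n : ℕ} {F : Set (ℝ × ℝ)} (hF : F ∈ Continua a b) :
    bestDist n F ≤ b - a := by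
  obtain ⟨p, hp⟩ := hF.2.1.nonempty
  have hpD := hF.2.2 hp
  have hab : a ≤ b := hpD.1.1.trans hpD.1.2
  refine bestDist_le_of (trigCurves_nonempty n p) (hausdorffDist_le_of_mem_dist (by linarith) ?_ ?_)
  · intro q hq
    have hqD := hF.2.2 hq
    refine ⟨p, rfl, ?_⟩
    rw [Prod.dist_eq, Real.dist_eq, Real.dist_eq]
    exact max_le (abs_le.2 ⟨by linarith [hqD.1.1, hpD.1.2], by linarith [hqD.1.2, hpD.1.1]⟩)
      (abs_le.2 ⟨by linarith [hqD.2.1, hpD.2.2], by linarith [hqD.2.2, hpD.2.1]⟩)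
  · intro q hq
    rw [mem_singleton_iff] at hq
    exact ⟨p, hp, by rw [hq, dist_self]; linarith⟩

theorem worstDist_bddAbove (a b : ℝ) (n : ℕ) :
    BddAbove {r : ℝ | ∃ F ∈ Continua a b, r = bestDist n F} :=
  ⟨b - a, by rintro r ⟨F, hF, rfl⟩; exact bestDist_le_diam hF⟩

theorem le_worstDist {a b : ℝ} {n : ℕ} {F : Set (ℝ × ℝ)} (hF : F ∈ Continua a b) {ε : ℝ}
    (h : ∀ γ ∈ TrigCurves n, ε ≤ hausdorffDist F γ) : ε ≤ worstDist a b n := by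
  refine le_trans ?_ (le_csSup (worstDist_bddAbove a b n) ⟨F, hF, rfl⟩)
  refine le_csInf ⟨_, _, trigCurves_nonempty n (0, 0), rfl⟩ ?_
  rintro r ⟨γ, hγ, rfl⟩
  exact h γ hγ

theorem worstDist_le {a b : ℝ} (hab : a ≤ b) {n : ℕ} {r : ℝ}
    (h : ∀ F ∈ Continua a b, bestDist n F ≤ r) : worstDist a b n ≤ r := by
  refine csSup_le ⟨_, {(a, a)}, ⟨isCompact_singleton, isConnected_singleton, ?_⟩, rfl⟩ ?_
  · rintro p rfl
    exact ⟨⟨le_rfl, hab⟩, ⟨le_rfl, hab⟩⟩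
  · rintro s ⟨F, hF, rfl⟩
    exact h F hF

end Pool.Agent.Lib.MP_2a9019_an
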