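import Mathlib

/-!
Row C1 (Mathlib only). If a connected set `F` is covered by finitely many closed sets `C i`, each of
which meets `F`, then the graph on the index set in which `i` and `j` are adjacent when
`C i ∩ C j ∩ F` is nonempty is connected. Recipe: fix `i₀`, let `A` be the set of indices reachable from
`i₀`; the closed sets `⋃ i ∈ A, C i` and `⋃ i ∉ A, C i` cover `F` and both meet `F` if `A` is not everything;
`isPreconnected_closed_iff` gives a point of `F` in `C i ∩ C j`, `i ∈ A`, `j ∉ A`.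
-/

namespace Pool.Agent.Lib.MP_2a9019_an

open Set

/-- The intersection graph of a finite family of sets, seen in `F`. -/
def meetGraph {ι X : Type*} (F : Set X) (C : ι → Set X) : SimpleGraph ι where
  Adj i j := i ≠ j ∧ (C i ∩ C j ∩ F).Nonempty
  symm := ⟨fun i j h => ⟨h.1.symm, by rw [inter_comm (C j) (C i)]; exact h.2⟩⟩
  loopless := ⟨fun i h => h.1 rfl⟩

theorem meetGraph_connected {ι X : Type*} [Finite ι] [TopologicalSpace X] (F : Set X)
    (hF : IsConnected F) (C : ι → Set X) (hC : ∀ i, IsClosed (C i)) (hcov : F ⊆ ⋃ i, C i)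
    (hmeet : ∀ i, (C i ∩ F).Nonempty) : (meetGraph F C).Connected := by
  obtain ⟨x₀, hx₀⟩ := hF.nonempty
  obtain ⟨i₁, _⟩ := mem_iUnion.1 (hcov hx₀)
  have hne : Nonempty ι := ⟨i₁⟩
  refine ⟨fun i₀ j₀ => ?_⟩
  by_contra hcon
  have hU : IsClosed (⋃ i ∈ {i | (meetGraph F C).Reachable i₀ i}, C i) :=
    (Set.toFinite _).isClosed_biUnion (fun i _ => hC i)
  have hW : IsClosed (⋃ i ∈ {i | ¬ (meetGraph F C).Reachable i₀ i}, C i) :=
    (Set.toFinite _).isClosed_biUnion (fun i _ => hC i)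
  have h := isPreconnected_closed_iff.1 hF.isPreconnected _ _ hU hW ?_ ?_ ?_
  · obtain ⟨x, hxF, hxU, hxW⟩ := h
    obtain ⟨i, hi, hxi⟩ := mem_iUnion₂.1 hxU
    obtain ⟨j, hj, hxj⟩ := mem_iUnion₂.1 hxW
    have hi' : (meetGraph F C).Reachable i₀ i := hi
    have hj' : ¬ (meetGraph F C).Reachable i₀ j := hj
    apply hj'
    refine hi'.trans (SimpleGraph.Adj.reachable ?_)
    exact ⟨fun he => hj' (he ▸ hi'), x, ⟨hxi, hxj⟩, hxF⟩
  · intro x hx
    obtain ⟨i, hi⟩ := mem_iUnion.1 (hcov hx)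
    by_cases hr : (meetGraph F C).Reachable i₀ i
    · exact Or.inl (mem_iUnion₂.2 ⟨i, hr, hi⟩)
    · exact Or.inr (mem_iUnion₂.2 ⟨i, hr, hi⟩)
  · obtain ⟨x, hx, hxF⟩ := hmeet i₀
    exact ⟨x, hxF, mem_iUnion₂.2 ⟨i₀, SimpleGraph.Reachable.refl _, hx⟩⟩
  · obtain ⟨x, hx, hxF⟩ := hmeet j₀
    exact ⟨x, hxF, mem_iUnion₂.2 ⟨j₀, hcon, hx⟩⟩

end Pool.Agent.Lib.MP_2a9019_an
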