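import Mathlib

/-!
Definitions for MP_2a9019_an: Hausdorff approximation of plane continua by
closed curves whose two coordinates are trigonometric polynomials of degree at most `n`.
The metric of `ℝ × ℝ` is the maximum metric of the problem.
-/

namespace Pool.Agent.Lib.MP_2a9019_an

open Real Set Metric Filter

/-- The real trigonometric polynomials of degree at most `n`. -/
def TrigPoly (n : ℕ) : Set (ℝ → ℝ) :=
  {f | ∃ α β : ℕ → ℝ, ∀ t : ℝ,
    f t = α 0 + ∑ k ∈ Finset.Icc 1 n, (α k * cos (k * t) + β k * sin (k * t))}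

/-- The class `T_n²` of the problem: the plane point sets `{(φ t, ψ t) : 0 ≤ t ≤ 2π}` with
`φ, ψ` trigonometric polynomials of degree at most `n`. -/
def TrigCurves (n : ℕ) : Set (Set (ℝ × ℝ)) :=
  {γ | ∃ φ ∈ TrigPoly n, ∃ ψ ∈ TrigPoly n, γ = (fun t : ℝ => (φ t, ψ t)) '' Icc 0 (2 * π)}

/-- `Z_D` for `D = [a,b] × [a,b]`: the nonempty compact connected subsets of `D`. -/
def Continua (a b : ℝ) : Set (Set (ℝ × ℝ)) :=
  {F | IsCompact F ∧ IsConnected F ∧ F ⊆ Icc a b ×ˢ Icc a b}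

/-- `E(T_n²; F)`: the infimum of the Hausdorff distances `r(F, γ)`, `γ ∈ T_n²`. -/
noncomputable def bestDist (n : ℕ) (F : Set (ℝ × ℝ)) : ℝ :=
  sInf {r : ℝ | ∃ γ ∈ TrigCurves n, r = hausdorffDist F γ}

/-- `e_n`: the supremum of `E(T_n²; F)` over `F ∈ Z_D`, `D = [a,b] × [a,b]`. -/
noncomputable def worstDist (a b : ℝ) (n : ℕ) : ℝ :=
  sSup {r : ℝ | ∃ F ∈ Continua a b, r = bestDist n F}

/-- `c₂`: the upper limit of `√n e_n / (b - a)`. -/
noncomputable def c₂ (a b : ℝ) : EReal :=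
  limsup (fun n : ℕ => ((√(n : ℝ) * worstDist a b n / (b - a) : ℝ) : EReal)) atTop

end Pool.Agent.Lib.MP_2a9019_an
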