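import Pool.Agent.Lib.MP_2a9019_an.FDefs

/-!
Row F1. The kernel vanishes at the nodes. Recipe: put `θ = π/(2N)`,
`S j = ∑ k ∈ Icc 1 (N-1), cot (kθ) * sin (2 k j θ)`. Then
`S (j+1) - S j = ∑ 2 cos(k(2j+1)θ) cos(kθ) = ∑ (cos (2k(j+1)θ) + cos (2kjθ))`, and
`D j := ∑ k ∈ Icc 1 (N-1), cos (k j π/N)` is `N - 1` for `j = 0` and `(-(-1)^j - 1)/2` for
`1 ≤ j ≤ 2N-1` (multiply by `2 sin(jπ/(2N)) ≠ 0` and telescope). So `S 1 = N - 1` and
`S (j+1) = S j - 1`, i.e. `S j = N - j` for `1 ≤ j ≤ 2N-1`.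
-/

namespace Pool.Agent.Lib.MP_2a9019_an

open Real Set

private lemma h_sin_ne (N j : ℕ) (h1 : 1 ≤ j) (h2 : j ≤ 2 * N - 1) :
    sin (j * π / (2 * N)) ≠ 0 := by
  have hN : 1 ≤ N := by omega
  have hN' : (0 : ℝ) < 2 * N := by positivity
  have hj : (0 : ℝ) < j := by exact_mod_cast h1
  apply ne_of_gt
  apply sin_pos_of_pos_of_lt_pi
  · positivity
  · rw [div_lt_iff₀ hN']
    have h : (j : ℝ) < 2 * N := by exact_mod_cast (by omega : j < 2 * N)
    nlinarith [pi_pos]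

private lemma h_tele (m : ℕ) (a : ℝ) :
    2 * sin a * ∑ k ∈ Finset.Icc 1 m, cos (2 * k * a) = sin ((2 * m + 1) * a) - sin a := by
  induction m with
  | zero => simp
  | succ m ih =>
    rw [Finset.sum_Icc_succ_top (by omega), mul_add, ih]
    push_cast
    have h1 : (2 * ((m : ℝ) + 1) + 1) * a = 2 * ((m : ℝ) + 1) * a + a := by ring
    have h2 : (2 * (m : ℝ) + 1) * a = 2 * ((m : ℝ) + 1) * a - a := by ring
    rw [h1, h2, sin_add, sin_sub]
    ring

private lemma h_D (N j : ℕ) (h1 : 1 ≤ j) (h2 : j ≤ 2 * N - 1) :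
    ∑ k ∈ Finset.Icc 1 (N - 1), cos (2 * k * (j * π / (2 * N))) = (-(-1) ^ j - 1) / 2 := by
  have hN : 1 ≤ N := by omega
  have hN0 : (N : ℝ) ≠ 0 := by
    have : (0 : ℝ) < N := by exact_mod_cast hN
    exact this.ne'
  have h := h_tele (N - 1) (j * π / (2 * N))
  have hs := h_sin_ne N j h1 h2
  have e : (2 * ((N - 1 : ℕ) : ℝ) + 1) * (j * π / (2 * N)) = j * π - j * π / (2 * N) := by
    rw [Nat.cast_sub hN]
    push_cast
    field_simp
    ring
  rw [e, sin_sub, sin_nat_mul_pi, cos_nat_mul_pi] at h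
  have h3 : 2 * sin (j * π / (2 * N)) *
      (∑ k ∈ Finset.Icc 1 (N - 1), cos (2 * k * (j * π / (2 * N))) - (-(-1) ^ j - 1) / 2) = 0 := by
    linear_combination h
  have h4 : 2 * sin (j * π / (2 * N)) ≠ 0 := mul_ne_zero two_ne_zero hs
  have h5 := (mul_eq_zero.1 h3).resolve_left h4
  linarith

private noncomputable def hS (N j : ℕ) : ℝ :=
  ∑ k ∈ Finset.Icc 1 (N - 1), cos (k * π / (2 * N)) / sin (k * π / (2 * N)) *
    sin (2 * k * (j * π / (2 * N)))

private lemma h_step (N j : ℕ) (hN : 1 ≤ N) : hS N (j + 1) - hS N j =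
    ∑ k ∈ Finset.Icc 1 (N - 1), cos (2 * k * ((j + 1 : ℕ) * π / (2 * N))) +
    ∑ k ∈ Finset.Icc 1 (N - 1), cos (2 * k * (j * π / (2 * N))) := by
  unfold hS
  rw [← Finset.sum_sub_distrib, ← Finset.sum_add_distrib]
  apply Finset.sum_congr rfl
  intro k hk
  rw [Finset.mem_Icc] at hk
  have hs : sin (k * π / (2 * N)) ≠ 0 := h_sin_ne N k hk.1 (by omega)
  set θ : ℝ := k * π / (2 * N) with hθ
  set u : ℝ := (2 * j + 1) * θ with hu
  have e1 : 2 * (k : ℝ) * ((j + 1 : ℕ) * π / (2 * N)) = u + θ := by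
    rw [hu, hθ]; push_cast; ring
  have e2 : 2 * (k : ℝ) * (j * π / (2 * N)) = u - θ := by
    rw [hu, hθ]; ring
  rw [e1, e2, sin_add, sin_sub, cos_add, cos_sub]
  field_simp
  ring

private lemma h_val (N j : ℕ) (hN : 1 ≤ N) (h1 : 1 ≤ j) (h2 : j ≤ 2 * N - 1) :
    hS N j = N - j := by
  induction j with
  | zero => omega
  | succ j ih =>
    have hst := h_step N j hN
    rw [h_D N (j + 1) h1 h2] at hst
    rcases Nat.eq_zero_or_pos j with hj | hj
    · subst hj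
      have h0 : hS N 0 = 0 := by simp [hS]
      have hD0 : ∑ k ∈ Finset.Icc 1 (N - 1), cos (2 * (k : ℝ) * (((0 : ℕ) : ℝ) * π / (2 * N))) = N - 1 := by
        simp [Nat.cast_sub hN]
      rw [h0, hD0] at hst
      norm_num at hst ⊢
      linarith
    · have ih' := ih hj (by omega)
      rw [ih', h_D N j hj (by omega), pow_succ] at hst
      push_cast
      linarith

theorem favG_node (N j : ℕ) (hN : 1 ≤ N) (h1 : 1 ≤ j) (h2 : j ≤ 2 * N - 1) :
    favG N (j * π / N) = 0 := by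
  have hN0 : (0 : ℝ) < N := by exact_mod_cast hN
  have h := h_val N j hN h1 h2
  have hT : favT N (j * π / N) = π / (2 * N) * hS N j := by
    unfold favT hS favC
    rw [Finset.mul_sum]
    apply Finset.sum_congr rfl
    intro k _
    have e : (k : ℝ) * (j * π / N) = 2 * k * (j * π / (2 * N)) := by
      field_simp
    rw [e]
    ring
  unfold favG
  rw [hT, h]
  field_simp
  ring

end Pool.Agent.Lib.MP_2a9019_an
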