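import Pool.Agent.Lib.MP_2a9019_an.FDefs

/-!
Row F2. Elementary facts about the kernel.
-/

namespace Pool.Agent.Lib.MP_2a9019_an

open Real Set

theorem favG_zero (N : ℕ) : favG N 0 = π / 2 := by
  unfold favG favT
  simp

theorem favG_two_pi (N : ℕ) : favG N (2 * π) = -(π / 2) := by
  have h : favT N (2 * π) = 0 := by
    unfold favT
    refine Finset.sum_eq_zero fun k _ => ?_
    have h1 : (k : ℝ) * (2 * π) = ((2 * k : ℕ) : ℝ) * π := by
      push_cast
      ring
    rw [h1, Real.sin_nat_mul_pi, mul_zero]
  unfold favG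
  rw [h]
  ring

theorem hasDerivAt_favG (N : ℕ) (t : ℝ) : HasDerivAt (favG N) (favG' N t) t := by
  have h1 : HasDerivAt (fun s : ℝ => (π - s) / 2) (-(1 / 2)) t := by
    have h := ((hasDerivAt_id t).const_sub π).div_const 2
    refine h.congr_deriv ?_
    norm_num
  have h2 : HasDerivAt (favT N) (∑ k ∈ Finset.Icc 1 (N - 1), favC N k * (k * cos (k * t))) t := by
    have h3 : ∀ k ∈ Finset.Icc 1 (N - 1), HasDerivAt (fun s : ℝ => favC N k * sin (k * s))
        (favC N k * (k * cos (k * t))) t := by
      intro k _
      have h4 : HasDerivAt (fun s : ℝ => (k : ℝ) * s) k t := by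
        simpa using (hasDerivAt_id t).const_mul (k : ℝ)
      have h5 := (h4.sin).const_mul (favC N k)
      refine h5.congr_deriv ?_
      ring
    exact HasDerivAt.fun_sum h3
  exact h1.sub h2

theorem continuous_favG' (N : ℕ) : Continuous (favG' N) := by
  unfold favG'
  fun_prop

/-- `favG' N` is a trigonometric polynomial of degree at most `N - 1`. -/
theorem favG'_mem (N : ℕ) : favG' N ∈ TrigPoly (N - 1) := by
  refine ⟨fun k => if k = 0 then -(1 / 2) else -(favC N k * k), fun _ => 0, fun t => ?_⟩
  unfold favG'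
  simp only [if_true, zero_mul, add_zero]
  rw [sub_eq_add_neg, ← Finset.sum_neg_distrib]
  congr 1
  refine Finset.sum_congr rfl fun k hk => ?_
  have h : k ≠ 0 := by
    have := (Finset.mem_Icc.1 hk).1
    omega
  rw [if_neg h]
  ring

theorem integral_favG' (N : ℕ) : ∫ t in (0:ℝ)..(2 * π), favG' N t = -π := by
  rw [intervalIntegral.integral_eq_sub_of_hasDerivAt (fun t _ => hasDerivAt_favG N t)
    ((continuous_favG' N).intervalIntegrable _ _), favG_zero, favG_two_pi]
  ring

/-- It is not identically zero (its integral over a period is `-π`). -/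
theorem favG'_ne (N : ℕ) : ∃ t, favG' N t ≠ 0 := by
  by_contra h
  push Not at h
  have h1 := integral_favG' N
  simp only [h, intervalIntegral.integral_zero] at h1
  have := Real.pi_pos
  linarith

end Pool.Agent.Lib.MP_2a9019_an
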