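import Pool.Agent.Lib.MP_2a9019_an.F1
import Pool.Agent.Lib.MP_2a9019_an.F2

/-!
Row F3. The sign pattern of the kernel: on the `j`-th gap `(jπ/N, (j+1)π/N)`, `0 ≤ j < 2N`, the
kernel has the sign `(-1)^j`. Recipe: `favG` has the `2N-1` zeros `jπ/N`, `1 ≤ j ≤ 2N-1`
(`favG_node`); Rolle (`exists_hasDerivAt_eq_zero`) gives a zero of `favG'` strictly inside each of
the `2N-2` inner gaps `(jπ/N, (j+1)π/N)`, `1 ≤ j ≤ 2N-2`. By `card_zeros_le` (with `n = N-1`) the
function `favG'` has at most `2N-2` zeros in `[0, 2π)`. Hence (a) `favG'` does not vanish at the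
nodes; (b) `favG` has no zero inside a gap (an additional zero in an inner gap gives two Rolle zeros
in that gap, an additional zero in the first or last gap gives one there). So `favG` has constant
sign on each gap (`favG` continuous), it is positive on the first gap because `favG 0 = π/2 > 0`,
and it changes sign at every node because the derivative there is nonzero: induction on `j`.
-/

namespace Pool.Agent.Lib.MP_2a9019_an

open Real Set

private theorem rolle_count {f f' : ℝ → ℝ} (hf : ∀ t, HasDerivAt f (f' t) t) (m : ℕ) (Z : Finset ℝ)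
    (hZ : Z.card = m + 1) (h0 : ∀ z ∈ Z, f z = 0) :
    ∃ Z' : Finset ℝ, Z'.card = m ∧ ∀ z ∈ Z', f' z = 0 ∧ z ∉ Z ∧ (∃ a ∈ Z, a < z) ∧ ∃ b ∈ Z, z < b := by
  have hcont : Continuous f := continuous_iff_continuousAt.2 fun t => (hf t).continuousAt
  set e := Z.orderEmbOfFin hZ with he
  have hmem : ∀ i, e i ∈ Z := fun i => Z.orderEmbOfFin_mem hZ i
  have hex : ∀ i : Fin m, ∃ c ∈ Ioo (e i.castSucc) (e i.succ), f' c = 0 := by
    intro i
    refine exists_hasDerivAt_eq_zero ?_ hcont.continuousOn ?_ fun x _ => hf x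
    · exact e.strictMono (Fin.castSucc_lt_succ)
    · rw [h0 _ (hmem _), h0 _ (hmem _)]
  choose c hc hc0 using hex
  have hmono : StrictMono c := by
    intro i k hik
    have h1 : e i.succ ≤ e k.castSucc := by
      apply e.monotone
      rw [Fin.le_def]
      simp only [Fin.val_succ, Fin.val_castSucc]
      exact hik
    exact (hc i).2.trans_le (h1.trans (hc k).1.le)
  refine ⟨Finset.univ.image c, ?_, ?_⟩
  · rw [Finset.card_image_of_injective _ hmono.injective]
    simp
  · intro z hz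
    obtain ⟨i, -, rfl⟩ := Finset.mem_image.1 hz
    refine ⟨hc0 i, ?_, ⟨_, hmem _, (hc i).1⟩, ⟨_, hmem _, (hc i).2⟩⟩
    intro hi
    have : c i ∈ Set.range e := by
      rw [he, Finset.range_orderEmbOfFin]
      exact hi
    obtain ⟨k, hk⟩ := this
    have h1 := (hc i).1
    have h2 := (hc i).2
    rw [← hk] at h1 h2
    have h3 := e.lt_iff_lt.1 h1
    have h4 := e.lt_iff_lt.1 h2
    rw [Fin.lt_def] at h3 h4
    simp only [Fin.val_succ, Fin.val_castSucc] at h3 h4
    omega

private theorem const_sign {f : ℝ → ℝ} (hf : Continuous f) {a b : ℝ} (h0 : ∀ t ∈ Ioo a b, f t ≠ 0)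
    {s t : ℝ} (hs : s ∈ Ioo a b) (ht : t ∈ Ioo a b) (h : 0 < f t) : 0 < f s := by
  by_contra hn
  obtain ⟨u, hu, hu0⟩ := isPreconnected_Ioo.intermediate_value hs ht hf.continuousOn
    (⟨not_lt.1 hn, h.le⟩ : (0 : ℝ) ∈ Icc (f s) (f t))
  exact h0 u hu hu0

private noncomputable def nodes (N : ℕ) : Finset ℝ :=
  (Finset.Icc 1 (2 * N - 1)).image fun j : ℕ => (j * π / N : ℝ)

private theorem mem_nodes {N : ℕ} {x : ℝ} :
    x ∈ nodes N ↔ ∃ j : ℕ, 1 ≤ j ∧ j ≤ 2 * N - 1 ∧ (j * π / N : ℝ) = x := by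
  simp [nodes, and_assoc]

private theorem node_lt {N : ℕ} (hN : 1 ≤ N) {i j : ℕ} :
    (i * π / N : ℝ) < j * π / N ↔ i < j := by
  have hN' : (0 : ℝ) < N := by exact_mod_cast hN
  rw [div_lt_div_iff_of_pos_right hN', mul_lt_mul_iff_left₀ Real.pi_pos]
  exact_mod_cast Iff.rfl

private theorem card_nodes {N : ℕ} (hN : 1 ≤ N) : (nodes N).card = (2 * N - 2) + 1 := by
  unfold nodes
  rw [Finset.card_image_of_injective]
  · simp
    omega
  · intro i j hij
    rcases lt_trichotomy i j with h | h | h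
    · exact absurd hij ((node_lt hN).2 h).ne
    · exact h
    · exact absurd hij ((node_lt hN).2 h).ne'

private theorem nodes_zero {N : ℕ} (hN : 1 ≤ N) : ∀ z ∈ nodes N, favG N z = 0 := by
  intro z hz
  obtain ⟨j, h1, h2, rfl⟩ := mem_nodes.1 hz
  exact favG_node N j hN h1 h2

private theorem nodes_mem {N : ℕ} (hN : 1 ≤ N) : ∀ z ∈ nodes N, z ∈ Ico 0 (0 + 2 * π) := by
  intro z hz
  obtain ⟨j, h1, h2, rfl⟩ := mem_nodes.1 hz
  have hN' : (0 : ℝ) < N := by exact_mod_cast hN
  constructor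
  · positivity
  · rw [zero_add, div_lt_iff₀ hN']
    have : (j : ℝ) + 1 ≤ 2 * N := by
      have : j + 1 ≤ 2 * N := by omega
      exact_mod_cast this
    nlinarith [Real.pi_pos]

/-- the derivative does not vanish at the nodes -/
private theorem deriv_ne {N : ℕ} (hN : 1 ≤ N) (x : ℝ) (hx : x ∈ nodes N) : favG' N x ≠ 0 := by
  intro h
  obtain ⟨Z', hc, hZ'⟩ := rolle_count (hasDerivAt_favG N) (2 * N - 2) (nodes N) (card_nodes hN)
    (nodes_zero hN)
  have hx' : x ∉ Z' := fun hh => (hZ' x hh).2.1 hx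
  have hcard : (insert x Z').card = 2 * N - 2 + 1 := by
    rw [Finset.card_insert_of_notMem hx', hc]
  have := card_zeros_le (favG'_mem N) (favG'_ne N) 0 (insert x Z') (by
    intro t ht
    rcases Finset.mem_insert.1 ht with rfl | ht
    · exact ⟨nodes_mem hN _ hx, h⟩
    · obtain ⟨h0, -, ⟨a, ha, hat⟩, ⟨b, hb, htb⟩⟩ := hZ' t ht
      exact ⟨⟨(nodes_mem hN a ha).1.trans hat.le, htb.trans (nodes_mem hN b hb).2⟩, h0⟩)
  omega

/-- no zero besides the nodes -/
private theorem no_zero {N : ℕ} (hN : 1 ≤ N) (x : ℝ) (hx : x ∉ nodes N) (hx1 : x ∈ Ico 0 (0 + 2 * π)) :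
    favG N x ≠ 0 := by
  intro h
  obtain ⟨Z', hc, hZ'⟩ := rolle_count (hasDerivAt_favG N) (2 * N - 1) (insert x (nodes N))
    (by rw [Finset.card_insert_of_notMem hx, card_nodes hN]; omega)
    (by
      intro z hz
      rcases Finset.mem_insert.1 hz with rfl | hz
      · exact h
      · exact nodes_zero hN z hz)
  have hmem : ∀ z ∈ insert x (nodes N), z ∈ Ico 0 (0 + 2 * π) := by
    intro z hz
    rcases Finset.mem_insert.1 hz with rfl | hz
    · exact hx1
    · exact nodes_mem hN z hz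
  have := card_zeros_le (favG'_mem N) (favG'_ne N) 0 Z' (by
    intro t ht
    obtain ⟨h0, -, ⟨a, ha, hat⟩, ⟨b, hb, htb⟩⟩ := hZ' t ht
    exact ⟨⟨(hmem a ha).1.trans hat.le, htb.trans (hmem b hb).2⟩, h0⟩)
  omega

private theorem gap_ne {N : ℕ} (hN : 1 ≤ N) (j : ℕ) (hj : j < 2 * N) (t : ℝ)
    (ht : t ∈ Ioo (j * π / N : ℝ) ((j + 1) * π / N)) : favG N t ≠ 0 := by
  have hN' : (0 : ℝ) < N := by exact_mod_cast hN
  have ht2 : t < ((j + 1 : ℕ) : ℝ) * π / N := by
    push_cast
    exact ht.2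
  apply no_zero hN
  · intro h
    obtain ⟨i, h1, h2, rfl⟩ := mem_nodes.1 h
    have h3 := (node_lt hN).1 ht.1
    have h4 := (node_lt hN).1 ht2
    omega
  · constructor
    · have : (0 : ℝ) ≤ j * π / N := by positivity
      exact this.trans ht.1.le
    · rw [zero_add]
      refine ht2.trans_le ?_
      rw [div_le_iff₀ hN']
      have : ((j + 1 : ℕ) : ℝ) ≤ 2 * N := by
        have : j + 1 ≤ 2 * N := by omega
        exact_mod_cast this
      nlinarith [Real.pi_pos]

theorem favG_sign (N : ℕ) (hN : 1 ≤ N) (j : ℕ) (hj : j < 2 * N) (t : ℝ)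
    (ht : t ∈ Ioo (j * π / N : ℝ) ((j + 1) * π / N)) : 0 < (-1 : ℝ) ^ j * favG N t := by
  have hN' : (0 : ℝ) < N := by exact_mod_cast hN
  have hcont : Continuous (favG N) :=
    continuous_iff_continuousAt.2 fun t => (hasDerivAt_favG N t).continuousAt
  induction j generalizing t with
  | zero =>
    simp only [pow_zero, one_mul]
    by_contra hn
    have hlt : (0 : ℝ) < t := by simpa using ht.1
    have h1 : (0 : ℝ) ∈ Icc (favG N t) (favG N 0) := by
      rw [favG_zero]
      exact ⟨not_lt.1 hn, by positivity⟩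
    obtain ⟨u, hu, hu0⟩ := intermediate_value_Icc' hlt.le hcont.continuousOn h1
    rcases eq_or_lt_of_le hu.1 with h | h
    · rw [← h, favG_zero] at hu0
      have := Real.pi_pos
      linarith
    · exact gap_ne hN 0 hj u ⟨by simpa using h, hu.2.trans_lt ht.2⟩ hu0
  | succ j ih =>
    have hj' : j < 2 * N := by omega
    have ihj := ih hj'
    have hcont' : Continuous fun s => (-1 : ℝ) ^ j * favG N s := continuous_const.mul hcont
    have hgap : ∀ s ∈ Ioo (((j + 1 : ℕ) : ℝ) * π / N) ((((j + 1 : ℕ) : ℝ) + 1) * π / N),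
        (-1 : ℝ) ^ j * favG N s ≠ 0 := by
      intro s hs
      exact mul_ne_zero (pow_ne_zero _ (by norm_num)) (gap_ne hN (j + 1) hj s hs)
    rw [pow_succ]
    have hne := hgap t ht
    by_contra hn
    have hpos : 0 < (-1 : ℝ) ^ j * favG N t := by
      rcases lt_or_gt_of_ne hne with h | h
      · exfalso
        apply hn
        nlinarith
      · exact h
    have hall : ∀ s ∈ Ioo (((j + 1 : ℕ) : ℝ) * π / N) ((((j + 1 : ℕ) : ℝ) + 1) * π / N),
        0 < (-1 : ℝ) ^ j * favG N s := fun s hs => const_sign hcont' hgap hs ht hpos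
    have hx : (((j + 1 : ℕ) : ℝ) * π / N) ∈ nodes N :=
      mem_nodes.2 ⟨j + 1, by omega, by omega, rfl⟩
    have hd : HasDerivAt (fun s => (-1 : ℝ) ^ j * favG N s)
        ((-1 : ℝ) ^ j * favG' N (((j + 1 : ℕ) : ℝ) * π / N)) (((j + 1 : ℕ) : ℝ) * π / N) :=
      (hasDerivAt_favG N _).const_mul _
    have hmin : IsLocalMin (fun s => (-1 : ℝ) ^ j * favG N s) (((j + 1 : ℕ) : ℝ) * π / N) := by
      have hlo : (j * π / N : ℝ) < ((j + 1 : ℕ) : ℝ) * π / N := (node_lt hN).2 (Nat.lt_succ_self j)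
      have hhi : ((j + 1 : ℕ) : ℝ) * π / N < (((j + 1 : ℕ) : ℝ) + 1) * π / N := by
        have := (node_lt hN).2 (Nat.lt_succ_self (j + 1))
        push_cast at this ⊢
        exact this
      filter_upwards [Ioo_mem_nhds hlo hhi] with s hs
      simp only [nodes_zero hN _ hx, mul_zero]
      rcases lt_trichotomy s (((j + 1 : ℕ) : ℝ) * π / N) with h | h | h
      · refine (ihj s ⟨hs.1, ?_⟩).le
        push_cast at h
        exact h
      · rw [h, nodes_zero hN _ hx, mul_zero]
      · exact (hall s ⟨h, hs.2⟩).le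
    have h0 := hmin.hasDerivAt_eq_zero hd
    rcases mul_eq_zero.1 h0 with h | h
    · exact absurd h (pow_ne_zero _ (by norm_num))
    · exact deriv_ne hN _ hx h

end Pool.Agent.Lib.MP_2a9019_an
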