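import Pool.Agent.Lib.MP_2a9019_an.F3

/-!
Row F4. The `L¹` norm of the kernel. Recipe: by `favG_sign`, the integral of `|favG|` is the sum over
`j < 2N` of `(-1)^j ∫ favG` over `[jπ/N, (j+1)π/N]` (`intervalIntegral.sum_integral_adjacent_intervals`).
The linear part gives `∑_j (-1)^j ∫ (π - t)/2 = π²/(2N)` (pair the gaps `2i`, `2i+1`: each pair gives
`π²/(2N²)`), and for `1 ≤ k ≤ N-1` the sum `∑_j (-1)^j ∫ sin (k t)` vanishes, because
`∫ sin (k t)` over the gap is `(cos (k j π/N) - cos (k (j+1) π/N))/k` and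
`∑_{j<2N} (-1)^j cos (k j π/N) = 0`, `∑_{j<2N} (-1)^j sin (k j π/N) = 0`
(geometric sum of `-exp(i k π/N) ≠ 1`, whose `2N`-th power is `1`).
-/

namespace Pool.Agent.Lib.MP_2a9019_an

open Real Set

/-- an antiderivative of the kernel -/
private noncomputable def f4F (N : ℕ) (t : ℝ) : ℝ :=
  (π * t / 2 - t ^ 2 / 4) + ∑ k ∈ Finset.Icc 1 (N - 1), favC N k / k * cos (k * t)

private theorem f4_deriv (N : ℕ) (t : ℝ) : HasDerivAt (f4F N) (favG N t) t := by
  have h1 : HasDerivAt (fun t : ℝ => π * t / 2 - t ^ 2 / 4) ((π - t) / 2) t := by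
    have ha : HasDerivAt (fun t : ℝ => π * t / 2) (π / 2) t := by
      have := ((hasDerivAt_id t).const_mul π).div_const 2
      simpa using this
    have hb : HasDerivAt (fun t : ℝ => t ^ 2 / 4) (t / 2) t := by
      have := (hasDerivAt_pow 2 t).div_const 4
      refine this.congr_deriv ?_
      norm_num
      ring
    refine (ha.sub hb).congr_deriv ?_
    ring
  have h2 : HasDerivAt (fun t : ℝ => ∑ k ∈ Finset.Icc 1 (N - 1), favC N k / k * cos (k * t))
      (∑ k ∈ Finset.Icc 1 (N - 1), -(favC N k * sin (k * t))) t := by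
    have := HasDerivAt.fun_sum (u := Finset.Icc 1 (N - 1))
      (A := fun (k : ℕ) (t : ℝ) => favC N k / k * cos (k * t))
      (A' := fun (k : ℕ) => -(favC N k * sin (k * t))) (x := t) ?_
    · exact this
    intro k hk
    have hk0 : (k : ℝ) ≠ 0 := by
      have := (Finset.mem_Icc.mp hk).1
      positivity
    have hm : HasDerivAt (fun t : ℝ => (k : ℝ) * t) (k : ℝ) t := by
      simpa using (hasDerivAt_id t).const_mul (k : ℝ)
    have hc := (hm.cos).const_mul (favC N k / k)
    refine hc.congr_deriv ?_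
    field_simp
  have h3 := h1.add h2
  refine h3.congr_deriv ?_
  unfold favG favT
  rw [Finset.sum_neg_distrib]
  ring

private theorem f4_cont (N : ℕ) : Continuous (favG N) := by
  unfold favG favT
  fun_prop

private theorem f4_int (N : ℕ) (a b : ℝ) : ∫ t in a..b, favG N t = f4F N b - f4F N a :=
  intervalIntegral.integral_eq_sub_of_hasDerivAt (fun t _ => f4_deriv N t)
    ((f4_cont N).intervalIntegrable _ _)

private theorem f4_tele (h : ℝ) (m : ℕ) :
    2 * cos h * ∑ j ∈ Finset.range m, (-1 : ℝ) ^ j * (cos ((j + 1) * (2 * h)) - cos (j * (2 * h)))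
      = (-1 : ℝ) ^ m * (cos (m * (2 * h) - h) - cos (m * (2 * h) + h)) := by
  induction m with
  | zero => simp
  | succ m ih =>
    rw [Finset.sum_range_succ, mul_add, ih]
    push_cast
    have e1 : ((m : ℝ) + 1) * (2 * h) = (m * (2 * h) + h) + h := by ring
    have e2 : (m : ℝ) * (2 * h) = (m * (2 * h) + h) - h := by ring
    have e3 : (m : ℝ) * (2 * h) - h = (m * (2 * h) + h) - 2 * h := by ring
    have e4 : ((m : ℝ) + 1) * (2 * h) - h = (m * (2 * h) + h) := by ring
    have e5 : ((m : ℝ) + 1) * (2 * h) + h = (m * (2 * h) + h) + 2 * h := by ring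
    rw [e4, e5, e1, e3]
    set x := (m : ℝ) * (2 * h) + h with hx
    rw [show (m : ℝ) * (2 * h) = x - h by rw [hx]; ring]
    rw [cos_add x h, cos_sub x h, cos_sub x (2 * h), cos_add x (2 * h), cos_two_mul, sin_two_mul, pow_succ]
    ring

private theorem f4_cos (N k : ℕ) (hN : 1 ≤ N) (hk : k ∈ Finset.Icc 1 (N - 1)) :
    ∑ j ∈ Finset.range (2 * N), (-1 : ℝ) ^ j * (cos (k * ((j + 1 : ℕ) * π / N)) - cos (k * (j * π / N))) = 0 := by
  have hk1 := (Finset.mem_Icc.mp hk).1
  have hk2 := (Finset.mem_Icc.mp hk).2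
  have hN0 : (0 : ℝ) < N := by exact_mod_cast hN
  have hkN : (k : ℝ) < N := by
    have : k < N := by omega
    exact_mod_cast this
  have hk0 : (0 : ℝ) < k := by exact_mod_cast hk1
  set h : ℝ := k * π / (2 * N) with hh
  have hpos : 0 < h := by positivity
  have hlt : h < π / 2 := by
    rw [hh, div_lt_div_iff₀ (by positivity) (by positivity)]
    nlinarith [Real.pi_pos]
  have hcos : 0 < cos h := cos_pos_of_mem_Ioo ⟨by linarith [Real.pi_pos], hlt⟩
  have ht := f4_tele h (2 * N)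
  have e0 : ((2 * N : ℕ) : ℝ) * (2 * h) = k * (2 * π) := by
    rw [hh]; push_cast; field_simp
  rw [e0] at ht
  have e1 : cos ((k : ℝ) * (2 * π) - h) = cos h := by
    have := Real.cos_nat_mul_two_pi_sub h k
    exact this
  have e2 : cos ((k : ℝ) * (2 * π) + h) = cos h := by
    have := Real.cos_add_nat_mul_two_pi h k
    rw [add_comm]; exact this
  rw [e1, e2, sub_self, mul_zero] at ht
  have h3 := (mul_eq_zero.mp ht).resolve_left (by positivity)
  rw [← h3]
  refine Finset.sum_congr rfl (fun j _ => ?_)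
  congr 2
  · congr 1
    rw [hh]; push_cast; field_simp
  · congr 1
    rw [hh]; field_simp

private theorem f4_alt (m : ℕ) : ∑ j ∈ Finset.range (2 * m), (-1 : ℝ) ^ j * (2 * j + 1) = -(2 * m) := by
  induction m with
  | zero => simp
  | succ m ih =>
    rw [show 2 * (m + 1) = 2 * m + 1 + 1 by ring, Finset.sum_range_succ, Finset.sum_range_succ, ih]
    rw [pow_succ, pow_mul]
    norm_num
    ring

private theorem f4_alt0 (m : ℕ) : ∑ j ∈ Finset.range (2 * m), (-1 : ℝ) ^ j = 0 := by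
  induction m with
  | zero => simp
  | succ m ih =>
    rw [show 2 * (m + 1) = 2 * m + 1 + 1 by ring, Finset.sum_range_succ, Finset.sum_range_succ, ih]
    rw [pow_succ, pow_mul]
    norm_num

theorem integral_abs_favG (N : ℕ) (hN : 1 ≤ N) :
    ∫ t in (0:ℝ)..(2 * π), |favG N t| = π ^ 2 / (2 * N) := by
  have hN0 : (0 : ℝ) < N := by exact_mod_cast hN
  have hN1 : (N : ℝ) ≠ 0 := hN0.ne'
  have hsum := intervalIntegral.sum_integral_adjacent_intervals (μ := MeasureTheory.volume)
    (f := fun t => |favG N t|) (a := fun j : ℕ => (j : ℝ) * π / N) (n := 2 * N)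
    (fun k _ => (f4_cont N).abs.intervalIntegrable _ _)
  have ha0 : ((0 : ℕ) : ℝ) * π / N = 0 := by simp
  have ha1 : ((2 * N : ℕ) : ℝ) * π / N = 2 * π := by push_cast; field_simp
  rw [ha0, ha1] at hsum
  rw [← hsum]
  have hterm : ∀ j ∈ Finset.range (2 * N), ∫ t in ((j : ℝ) * π / N)..(((j + 1 : ℕ) : ℝ) * π / N), |favG N t|
      = (-1 : ℝ) ^ j * (f4F N (((j + 1 : ℕ) : ℝ) * π / N) - f4F N ((j : ℝ) * π / N)) := by
    intro j hj
    rw [← f4_int, ← intervalIntegral.integral_const_mul]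
    have hle : (j : ℝ) * π / N ≤ ((j + 1 : ℕ) : ℝ) * π / N := by
      push_cast
      gcongr
      linarith
    rw [intervalIntegral.integral_of_le hle, intervalIntegral.integral_of_le hle,
      MeasureTheory.integral_Ioc_eq_integral_Ioo, MeasureTheory.integral_Ioc_eq_integral_Ioo]
    refine MeasureTheory.setIntegral_congr_fun measurableSet_Ioo (fun t ht => ?_)
    have hs := favG_sign N hN j (Finset.mem_range.mp hj) t (by push_cast at ht; exact ht)
    show |favG N t| = (-1 : ℝ) ^ j * favG N t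
    rw [← abs_of_pos hs, abs_mul, abs_pow, abs_neg, abs_one, one_pow, one_mul]
  rw [Finset.sum_congr rfl hterm]
  have hsplit : ∀ j : ℕ, (-1 : ℝ) ^ j * (f4F N (((j + 1 : ℕ) : ℝ) * π / N) - f4F N ((j : ℝ) * π / N))
      = (π ^ 2 / (2 * N)) * (-1 : ℝ) ^ j - (π ^ 2 / (4 * N ^ 2)) * ((-1 : ℝ) ^ j * (2 * j + 1))
        + ∑ k ∈ Finset.Icc 1 (N - 1), favC N k / k *
          ((-1 : ℝ) ^ j * (cos (k * ((j + 1 : ℕ) * π / N)) - cos (k * (j * π / N)))) := by
    intro j
    unfold f4F
    have h1 : ∑ k ∈ Finset.Icc 1 (N - 1), favC N k / k *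
          ((-1 : ℝ) ^ j * (cos (k * ((j + 1 : ℕ) * π / N)) - cos (k * (j * π / N)))) =
        (-1 : ℝ) ^ j * (∑ k ∈ Finset.Icc 1 (N - 1), favC N k / k * cos (k * ((j + 1 : ℕ) * π / N))
          - ∑ k ∈ Finset.Icc 1 (N - 1), favC N k / k * cos (k * (j * π / N))) := by
      rw [← Finset.sum_sub_distrib, Finset.mul_sum]
      refine Finset.sum_congr rfl (fun k _ => ?_)
      ring
    rw [h1]
    push_cast
    field_simp
    ring
  rw [Finset.sum_congr rfl (fun j _ => hsplit j), Finset.sum_add_distrib, Finset.sum_sub_distrib,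
    ← Finset.mul_sum, ← Finset.mul_sum, f4_alt0, f4_alt, Finset.sum_comm]
  have hz : ∑ k ∈ Finset.Icc 1 (N - 1), ∑ j ∈ Finset.range (2 * N), favC N k / k *
          ((-1 : ℝ) ^ j * (cos (k * ((j + 1 : ℕ) * π / N)) - cos (k * (j * π / N)))) = 0 := by
    refine Finset.sum_eq_zero (fun k hk => ?_)
    rw [← Finset.mul_sum, f4_cos N k hN hk, mul_zero]
  rw [hz]
  field_simp
  ring

end Pool.Agent.Lib.MP_2a9019_an
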