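import Pool.Agent.Lib.MP_2a9019_an.F2

/-!
Row F5. Convolution with the kernel: `t ↦ -(1/π) ∫_0^{2π} f (t - s) favG' N s ds` is a trigonometric
polynomial of degree at most `N - 1` for every continuous `2π`-periodic `f`. Recipe: expand
`favG' N s = -1/2 - ∑ c_k k cos (k s)`; `∫_0^{2π} f (t-s) cos (k s) ds = ∫_0^{2π} f u cos (k (t-u)) du`
(substitution `u = t - s` and periodicity: `Function.Periodic.intervalIntegral_add_eq`), and
`cos (k (t-u)) = cos (k t) cos (k u) + sin (k t) sin (k u)`.
-/

namespace Pool.Agent.Lib.MP_2a9019_an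

open Real Set

theorem conv_cos (f : ℝ → ℝ) (hf : Continuous f) (hp : ∀ t, f (t + 2 * π) = f t) (k : ℕ) (t : ℝ) :
    ∫ s in (0:ℝ)..(2 * π), f (t - s) * cos (k * s) =
      cos (k * t) * (∫ u in (0:ℝ)..(2 * π), f u * cos (k * u)) +
        sin (k * t) * (∫ u in (0:ℝ)..(2 * π), f u * sin (k * u)) := by
  have h1 : ∫ s in (0:ℝ)..(2 * π), f (t - s) * cos (k * s) =
      ∫ s in (0:ℝ)..(2 * π), (fun u => f u * cos (k * (t - u))) (t - s) := by
    refine intervalIntegral.integral_congr (fun s _ => ?_)
    simp only [sub_sub_cancel]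
  rw [h1, intervalIntegral.integral_comp_sub_left (fun u => f u * cos (k * (t - u)))]
  have hper : Function.Periodic (fun u => f u * cos (k * (t - u))) (2 * π) := by
    intro u
    have h2 : (k : ℝ) * (t - (u + 2 * π)) = k * (t - u) - k * (2 * π) := by ring
    simp only [hp, h2, cos_sub_nat_mul_two_pi]
  have h3 := hper.intervalIntegral_add_eq (t - 2 * π) 0
  rw [sub_add_cancel, zero_add] at h3
  rw [sub_zero, h3, ← intervalIntegral.integral_const_mul, ← intervalIntegral.integral_const_mul,
    ← intervalIntegral.integral_add]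
  · refine intervalIntegral.integral_congr (fun u _ => ?_)
    simp only [mul_sub, cos_sub]
    ring
  · exact Continuous.intervalIntegrable (by fun_prop) _ _
  · exact Continuous.intervalIntegrable (by fun_prop) _ _

theorem conv_mem (N : ℕ) (f : ℝ → ℝ) (hf : Continuous f) (hp : ∀ t, f (t + 2 * π) = f t) :
    (fun t => -(1 / π) * ∫ s in (0:ℝ)..(2 * π), f (t - s) * favG' N s) ∈ TrigPoly (N - 1) := by
  refine ⟨fun k => if k = 0 then 1 / (2 * π) * ∫ u in (0:ℝ)..(2 * π), f u else
      1 / π * favC N k * k * ∫ u in (0:ℝ)..(2 * π), f u * cos (k * u),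
    fun k => 1 / π * favC N k * k * ∫ u in (0:ℝ)..(2 * π), f u * sin (k * u), fun t => ?_⟩
  have h0 := conv_cos f hf hp 0 t
  simp only [Nat.cast_zero, zero_mul, cos_zero, sin_zero, mul_one, one_mul, add_zero] at h0
  have h1 : ∫ s in (0:ℝ)..(2 * π), f (t - s) * favG' N s =
      -(1 / 2) * (∫ s in (0:ℝ)..(2 * π), f (t - s)) -
        ∑ k ∈ Finset.Icc 1 (N - 1), favC N k * k *
          ∫ s in (0:ℝ)..(2 * π), f (t - s) * cos (k * s) := by
    have h2 : ∀ s : ℝ, f (t - s) * favG' N s = -(1 / 2) * f (t - s) -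
        ∑ k ∈ Finset.Icc 1 (N - 1), favC N k * k * (f (t - s) * cos (k * s)) := by
      intro s
      unfold favG'
      rw [mul_sub, Finset.mul_sum]
      congr 1
      · ring
      · exact Finset.sum_congr rfl (fun k _ => by ring)
    simp only [h2]
    rw [intervalIntegral.integral_sub, intervalIntegral.integral_const_mul,
      intervalIntegral.integral_finsetSum]
    · simp only [intervalIntegral.integral_const_mul]
    · intro k _
      exact Continuous.intervalIntegrable (by fun_prop) _ _
    · exact Continuous.intervalIntegrable (by fun_prop) _ _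
    · exact Continuous.intervalIntegrable (by fun_prop) _ _
  beta_reduce
  rw [h1, h0, if_pos rfl, mul_sub, sub_eq_add_neg, ← mul_neg, ← Finset.sum_neg_distrib,
    Finset.mul_sum]
  congr 1
  · ring
  · refine Finset.sum_congr rfl (fun k hk => ?_)
    have hk0 : k ≠ 0 := by
      have := (Finset.mem_Icc.mp hk).1
      omega
    rw [conv_cos f hf hp k t, if_neg hk0]
    ring

end Pool.Agent.Lib.MP_2a9019_an
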