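import Pool.Agent.Lib.MP_2a9019_an.F4
import Pool.Agent.Lib.MP_2a9019_an.F5

/-!
Row F6. Favard's theorem for Lipschitz functions (order 1, sharp constant). Recipe: take
`P t = -(1/π) ∫ f (t-s) favG' N s ds` (`conv_mem`). As `∫ favG' = -π` (`integral_favG'`),
`P t - f t = -(1/π) ∫ h s * favG' N s ds` with `h s = f (t-s) - f t`, a `K`-Lipschitz function with
`h 0 = h (2π) = 0`. Integration by parts for absolutely continuous functions
(`AbsolutelyContinuousOnInterval.integral_mul_deriv_eq_deriv_mul`,
`LipschitzOnWith.absolutelyContinuousOnInterval`) turns it into `(1/π) ∫ deriv h * favG`, and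
`|deriv h| ≤ K` (`norm_deriv_le_of_lipschitz`), so `|P t - f t| ≤ (K/π) ∫ |favG| = π K / (2N)`
by `integral_abs_favG`.
-/

namespace Pool.Agent.Lib.MP_2a9019_an

open Real Set

theorem favard (N : ℕ) (hN : 1 ≤ N) (K : NNReal) (f : ℝ → ℝ) (hf : LipschitzWith K f)
    (hp : ∀ t, f (t + 2 * π) = f t) :
    ∃ P ∈ TrigPoly (N - 1), ∀ t, |P t - f t| ≤ π * K / (2 * N) := by
  refine ⟨_, conv_mem N f hf.continuous hp, fun t => ?_⟩
  have hπ := Real.pi_pos
  have hN0 : (0 : ℝ) < N := by exact_mod_cast hN
  -- the difference function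
  set h : ℝ → ℝ := fun s => f (t - s) - f t with hh
  have hhL : LipschitzWith K h := by
    refine LipschitzWith.of_dist_le_mul (fun a b => ?_)
    have h1 := hf.dist_le_mul (t - a) (t - b)
    have h2 : dist (t - a) (t - b) = dist a b := by
      rw [Real.dist_eq, Real.dist_eq, abs_sub_comm a b]; congr 1; ring
    have h3 : dist (h a) (h b) = dist (f (t - a)) (f (t - b)) := by
      rw [Real.dist_eq, Real.dist_eq, hh]; congr 1; ring
    rw [h3, ← h2]; exact h1
  have h0 : h 0 = 0 := by simp [hh]
  have h2π : h (2 * π) = 0 := by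
    have h1 := hp (t - 2 * π)
    rw [sub_add_cancel] at h1
    simp only [hh]
    rw [h1, sub_self]
  have hder : deriv (favG N) = favG' N := by
    funext s; exact (hasDerivAt_favG N s).deriv
  have hcG : Continuous (favG N) :=
    continuous_iff_continuousAt.2 (fun s => (hasDerivAt_favG N s).continuousAt)
  have hcD : ContDiff ℝ 1 (favG N) := by
    rw [contDiff_one_iff_deriv]
    exact ⟨fun s => (hasDerivAt_favG N s).differentiableAt, by rw [hder]; exact continuous_favG' N⟩
  have hac1 : AbsolutelyContinuousOnInterval h 0 (2 * π) :=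
    (hhL.lipschitzOnWith (s := uIcc 0 (2 * π))).absolutelyContinuousOnInterval
  have hac2 : AbsolutelyContinuousOnInterval (favG N) 0 (2 * π) :=
    hcD.contDiffOn.absolutelyContinuousOnInterval
  have hibp := AbsolutelyContinuousOnInterval.integral_mul_deriv_eq_deriv_mul hac1 hac2
  rw [hder, h0, h2π, zero_mul, zero_mul, sub_zero, zero_sub] at hibp
  -- the difference as an integral
  have hdiff : -(1 / π) * (∫ s in (0:ℝ)..(2 * π), f (t - s) * favG' N s) - f t
      = (1 / π) * ∫ s in (0:ℝ)..(2 * π), deriv h s * favG N s := by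
    have h1 : (∫ s in (0:ℝ)..(2 * π), h s * favG' N s)
        = (∫ s in (0:ℝ)..(2 * π), f (t - s) * favG' N s) - ∫ s in (0:ℝ)..(2 * π), f t * favG' N s := by
      rw [← intervalIntegral.integral_sub]
      · refine intervalIntegral.integral_congr (fun s _ => ?_)
        simp only [hh]; ring
      · exact ((hf.continuous.comp (continuous_const.sub continuous_id)).mul
          (continuous_favG' N)).intervalIntegrable _ _
      · exact (continuous_const.mul (continuous_favG' N)).intervalIntegrable _ _
    rw [intervalIntegral.integral_const_mul, integral_favG'] at h1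
    rw [h1] at hibp
    have h2 : (∫ s in (0:ℝ)..(2 * π), f (t - s) * favG' N s)
        = - (∫ s in (0:ℝ)..(2 * π), deriv h s * favG N s) - f t * π := by linarith
    rw [h2]
    field_simp
    ring
  rw [hdiff, abs_mul, abs_of_pos (by positivity : (0 : ℝ) < 1 / π)]
  have hb : |∫ s in (0:ℝ)..(2 * π), deriv h s * favG N s| ≤ ∫ s in (0:ℝ)..(2 * π), (K : ℝ) * |favG N s| := by
    rw [← Real.norm_eq_abs]
    refine intervalIntegral.norm_integral_le_of_norm_le (by positivity) ?_ ?_
    · refine Filter.Eventually.of_forall (fun s _ => ?_)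
      rw [norm_mul, Real.norm_eq_abs (favG N s)]
      exact mul_le_mul_of_nonneg_right (norm_deriv_le_of_lipschitz hhL) (abs_nonneg _)
    · exact (continuous_const.mul hcG.abs).intervalIntegrable _ _
  rw [intervalIntegral.integral_const_mul, integral_abs_favG N hN] at hb
  calc 1 / π * |∫ s in (0:ℝ)..(2 * π), deriv h s * favG N s|
      ≤ 1 / π * (K * (π ^ 2 / (2 * N))) := mul_le_mul_of_nonneg_left hb (by positivity)
    _ = π * K / (2 * N) := by field_simp

end Pool.Agent.Lib.MP_2a9019_an
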