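import Pool.Agent.Lib.MP_2a9019_an.Z1

/-!
The Favard kernel: `favG N t = (π - t)/2 - T t`, where `T` is the trigonometric polynomial of degree
`N - 1` which interpolates `(π - t)/2` at the points `jπ/N`, `j = 1, …, 2N-1`.
-/

namespace Pool.Agent.Lib.MP_2a9019_an

open Real Set

/-- `(π/(2N)) cot(kπ/(2N))`. -/
noncomputable def favC (N k : ℕ) : ℝ :=
  π / (2 * N) * (cos (k * π / (2 * N)) / sin (k * π / (2 * N)))

/-- The interpolating sine polynomial of degree `N - 1`. -/
noncomputable def favT (N : ℕ) (t : ℝ) : ℝ :=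
  ∑ k ∈ Finset.Icc 1 (N - 1), favC N k * sin (k * t)

/-- The difference between the sawtooth (continued linearly to all of `ℝ`) and `favT`. -/
noncomputable def favG (N : ℕ) (t : ℝ) : ℝ := (π - t) / 2 - favT N t

/-- The derivative of `favG`. -/
noncomputable def favG' (N : ℕ) (t : ℝ) : ℝ :=
  -(1 / 2) - ∑ k ∈ Finset.Icc 1 (N - 1), favC N k * (k * cos (k * t))

end Pool.Agent.Lib.MP_2a9019_an
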