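import Pool.Agent.Lib.MP_2a9019_an.Defs

/-!
The comb: a vertical trunk, `k` horizontal spines at distance `v`, and on each spine `m` vertical teeth
of height `τ` at distance `w`.
-/

namespace Pool.Agent.Lib.MP_2a9019_an

open Real Set Metric

/-- The part of the comb which belongs to the tooth `(i, j)`: trunk, spine and tooth. -/
def combPart (a b w v τ : ℝ) (i j : ℕ) : Set (ℝ × ℝ) :=
  ({a} ×ˢ Icc a b) ∪ ((Icc a b ×ˢ {a + j * v}) ∪
    ({a + (i + 1) * w} ×ˢ Icc (a + j * v) (a + j * v + τ)))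

/-- The comb. -/
def comb (a b w v τ : ℝ) (m k : ℕ) : Set (ℝ × ℝ) :=
  ⋃ q : Fin m × Fin k, combPart a b w v τ q.1 q.2

theorem comb_continua (a b w v τ : ℝ) (m k : ℕ) (hab : a < b) (hw : 0 < w) (hv : 0 < v)
    (hτ : 0 ≤ τ) (hm : 0 < m) (hk : 0 < k) (hmw : a + m * w ≤ b) (hkv : a + (k - 1) * v + τ ≤ b) :
    comb a b w v τ m k ∈ Continua a b := by
  have hcol : ∀ i : Fin m, a ≤ a + ((i : ℕ) + 1) * w ∧ a + ((i : ℕ) + 1) * w ≤ b := by
    intro i
    have h1 : ((i : ℕ) : ℝ) + 1 ≤ m := by exact_mod_cast i.2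
    have h2 : (0 : ℝ) ≤ (i : ℕ) := Nat.cast_nonneg _
    constructor
    · nlinarith
    · nlinarith
  have hrow : ∀ j : Fin k, a ≤ a + (j : ℕ) * v ∧ a + (j : ℕ) * v + τ ≤ b := by
    intro j
    have h1 : ((j : ℕ) : ℝ) ≤ k - 1 := by
      have : ((j : ℕ) : ℝ) + 1 ≤ k := by exact_mod_cast j.2
      linarith
    have h2 : (0 : ℝ) ≤ (j : ℕ) := Nat.cast_nonneg _
    constructor
    · nlinarith
    · nlinarith
  have hconn : ∀ q : Fin m × Fin k, IsPreconnected (combPart a b w v τ q.1 q.2) := by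
    intro q
    have c1 : IsPreconnected (({a} : Set ℝ) ×ˢ Icc a b) :=
      isPreconnected_singleton.prod isPreconnected_Icc
    have c2 : IsPreconnected (Icc a b ×ˢ ({a + ((q.2 : ℕ) : ℝ) * v} : Set ℝ)) :=
      isPreconnected_Icc.prod isPreconnected_singleton
    have c3 : IsPreconnected (({a + (((q.1 : ℕ) : ℝ) + 1) * w} : Set ℝ) ×ˢ
        Icc (a + ((q.2 : ℕ) : ℝ) * v) (a + ((q.2 : ℕ) : ℝ) * v + τ)) :=
      isPreconnected_singleton.prod isPreconnected_Icc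
    have h1 := hcol q.1
    have h2 := hrow q.2
    have c23 := IsPreconnected.union (a + (((q.1 : ℕ) : ℝ) + 1) * w, a + ((q.2 : ℕ) : ℝ) * v)
      (by exact ⟨⟨h1.1, h1.2⟩, rfl⟩) (by exact ⟨rfl, ⟨le_rfl, by linarith⟩⟩) c2 c3
    exact IsPreconnected.union (a, a + ((q.2 : ℕ) : ℝ) * v)
      (by exact ⟨rfl, ⟨h2.1, by linarith⟩⟩)
      (by exact Or.inl ⟨⟨le_rfl, hab.le⟩, rfl⟩) c1 c23
  have hmem : ∀ q : Fin m × Fin k, (a, a) ∈ combPart a b w v τ q.1 q.2 := fun q =>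
    Or.inl ⟨rfl, ⟨le_rfl, hab.le⟩⟩
  refine ⟨?_, ⟨⟨(a, a), mem_iUnion.2 ⟨(⟨0, hm⟩, ⟨0, hk⟩), hmem _⟩⟩, ?_⟩, ?_⟩
  · refine isCompact_iUnion fun q => ?_
    exact (isCompact_singleton.prod isCompact_Icc).union
      ((isCompact_Icc.prod isCompact_singleton).union (isCompact_singleton.prod isCompact_Icc))
  · exact isPreconnected_iUnion ⟨(a, a), mem_iInter.2 hmem⟩ hconn
  · refine iUnion_subset fun q => ?_
    have h1 := hcol q.1
    have h2 := hrow q.2
    rintro ⟨x, y⟩ (⟨hx, hy⟩ | ⟨hx, hy⟩ | ⟨hx, hy⟩)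
    · simp only [mem_singleton_iff] at hx
      subst hx
      exact ⟨⟨le_rfl, hab.le⟩, hy⟩
    · simp only [mem_singleton_iff] at hy
      subst hy
      exact ⟨hx, ⟨h2.1, by linarith⟩⟩
    · simp only [mem_singleton_iff] at hx
      subst hx
      exact ⟨⟨h1.1, h1.2⟩, ⟨h2.1.trans hy.1, hy.2.trans h2.2⟩⟩

/-- A point within `ε` of the comb whose height lies strictly above the `ε`-neighbourhood of the
`j`-th spine and not above the beginning of the `ε`-neighbourhood of the next one, and which is to the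
right of the trunk, is within `ε` of a tooth of the `j`-th row. -/
theorem near_tooth (a b w v τ ε : ℝ) (m k : ℕ) (hv : 0 < v) (hτv : τ + 2 * ε < v)
    (hτ : 0 ≤ τ) (hε : 0 < ε) (j : ℕ) (z : ℝ × ℝ) (hz : a + ε ≤ z.1)
    (h1 : a + j * v + ε < z.2) (h2 : z.2 ≤ a + j * v + v - ε)
    (hp : ∃ p ∈ comb a b w v τ m k, dist z p < ε) :
    ∃ i : Fin m, |z.1 - (a + ((i : ℕ) + 1) * w)| < ε ∧ z.2 < a + j * v + τ + ε := by
  obtain ⟨p, hp, hd⟩ := hp
  obtain ⟨q, hq⟩ := mem_iUnion.1 hp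
  rw [Prod.dist_eq, max_lt_iff, Real.dist_eq, Real.dist_eq] at hd
  have hd1 := abs_lt.1 hd.1
  have hd2 := abs_lt.1 hd.2
  -- the row of a point near a spine or a tooth
  have hrow : ∀ j' : ℕ, a + j' * v - ε < z.2 → z.2 < a + j' * v + τ + ε → j' = j := by
    intro j' h3 h4
    rcases lt_trichotomy j' j with h | h | h
    · exfalso
      have h5 : (j' : ℝ) + 1 ≤ j := by exact_mod_cast h
      have h6 : (j' : ℝ) * v + v ≤ j * v := by nlinarith
      linarith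
    · exact h
    · exfalso
      have h5 : (j : ℝ) + 1 ≤ j' := by exact_mod_cast h
      have h6 : (j : ℝ) * v + v ≤ j' * v := by nlinarith
      linarith
  rcases hq with ⟨hx, hy⟩ | ⟨hx, hy⟩ | ⟨hx, hy⟩
  · exfalso
    simp only [mem_singleton_iff] at hx
    rw [hx] at hd1
    linarith [hd1.2]
  · exfalso
    simp only [mem_singleton_iff] at hy
    rw [hy] at hd2
    have h3 := hrow q.2 (by linarith [hd2.1]) (by linarith [hd2.2])
    rw [h3] at hd2
    linarith [hd2.2]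
  · simp only [mem_singleton_iff] at hx
    have hy1 := hy.1
    have hy2 := hy.2
    have h3 := hrow q.2 (by linarith [hd2.1]) (by linarith [hd2.2])
    rw [h3] at hy2
    refine ⟨q.1, ?_, by linarith [hd2.2]⟩
    rw [← hx]
    exact hd.1

theorem tip_mem (a b w v τ : ℝ) (m k : ℕ) (hτ : 0 ≤ τ) (q : Fin m × Fin k) :
    (a + (((q.1 : ℕ) : ℝ) + 1) * w, a + ((q.2 : ℕ) : ℝ) * v + τ) ∈ comb a b w v τ m k :=
  mem_iUnion.2 ⟨q, Or.inr (Or.inr ⟨rfl, ⟨by linarith, le_rfl⟩⟩)⟩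

end Pool.Agent.Lib.MP_2a9019_an
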