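import Pool.Agent.Lib.MP_2a9019_an.Defs

/-!
Basic facts on trigonometric polynomials: continuity, periodicity, derivative, constants.
-/

namespace Pool.Agent.Lib.MP_2a9019_an

open Real Set

theorem TrigPoly_continuous {n : ℕ} {f : ℝ → ℝ} (hf : f ∈ TrigPoly n) : Continuous f := by
  obtain ⟨α, β, h⟩ := hf
  have : f = fun t => α 0 + ∑ k ∈ Finset.Icc 1 n, (α k * cos (k * t) + β k * sin (k * t)) :=
    funext h
  rw [this]
  fun_prop

theorem TrigPoly_periodic {n : ℕ} {f : ℝ → ℝ} (hf : f ∈ TrigPoly n) (t : ℝ) :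
    f (t + 2 * π) = f t := by
  obtain ⟨α, β, h⟩ := hf
  rw [h, h]
  congr 1
  refine Finset.sum_congr rfl fun k _ => ?_
  have h1 : (k : ℝ) * (t + 2 * π) = k * t + k * (2 * π) := by ring
  rw [h1, cos_add_nat_mul_two_pi, sin_add_nat_mul_two_pi]

theorem TrigPoly_deriv {n : ℕ} {f : ℝ → ℝ} (hf : f ∈ TrigPoly n) :
    ∃ g ∈ TrigPoly n, ∀ t, HasDerivAt f (g t) t := by
  obtain ⟨α, β, h⟩ := hf
  have hfe : f = fun t => α 0 + ∑ k ∈ Finset.Icc 1 n, (α k * cos (k * t) + β k * sin (k * t)) :=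
    funext h
  refine ⟨fun t => ∑ k ∈ Finset.Icc 1 n, (α k * (-sin (k * t) * k) + β k * (cos (k * t) * k)),
    ⟨fun k => if k = 0 then 0 else β k * k, fun k => -(α k * k), fun t => ?_⟩, fun t => ?_⟩
  · simp only [if_true, zero_add]
    refine Finset.sum_congr rfl fun k hk => ?_
    have : k ≠ 0 := by have := (Finset.mem_Icc.1 hk).1; omega
    rw [if_neg this]
    ring
  · rw [hfe]
    refine HasDerivAt.const_add _ (HasDerivAt.fun_sum fun k _ => ?_)
    have hk : HasDerivAt (fun t : ℝ => (k : ℝ) * t) k t := by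
      simpa using (hasDerivAt_id t).const_mul (k : ℝ)
    exact (hk.cos.const_mul (α k)).add (hk.sin.const_mul (β k))

theorem TrigPoly_const (n : ℕ) (c : ℝ) : (fun _ => c) ∈ TrigPoly n :=
  ⟨fun k => if k = 0 then c else 0, fun _ => 0, fun t => by
    simp only [if_true, zero_mul, add_zero]
    rw [Finset.sum_eq_zero, add_zero]
    intro k hk
    have : k ≠ 0 := by have := (Finset.mem_Icc.1 hk).1; omega
    simp [this]⟩

end Pool.Agent.Lib.MP_2a9019_an
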