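import Pool.Agent.Lib.MP_2a9019_an.Z1
import Pool.Agent.Lib.MP_2a9019_an.Z2

/-!
Counting sign alternations of a trigonometric polynomial.
-/

namespace Pool.Agent.Lib.MP_2a9019_an

open Real Set

theorem alt_count {n : ℕ} {g : ℝ → ℝ} (hg : g ∈ TrigPoly n) (x₀ : ℝ) (L : ℕ) (y : ℕ → ℝ)
    (hy : ∀ k < L, y k < y (k + 1)) (h0 : x₀ ≤ y 0) (hL : y L < x₀ + 2 * π)
    (hs : ∀ k ≤ L, 0 < (-1 : ℝ) ^ k * g (y k)) : L ≤ 2 * n := by
  classical
  have hmono : ∀ a b, a ≤ b → b ≤ L → y a ≤ y b := by
    intro a b hab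
    induction b, hab using Nat.le_induction with
    | base => intro _; exact le_rfl
    | succ b _ ih => intro hb; exact (ih (by omega)).trans (hy b (by omega)).le
  have hcont := TrigPoly_continuous hg
  have hz : ∀ k < L, ∃ z ∈ Ioo (y k) (y (k + 1)), g z = 0 := by
    intro k hk
    have h1 := hs k hk.le
    have h2 := hs (k + 1) hk
    have h3 := hy k hk
    rcases Nat.even_or_odd k with he | ho
    · rw [he.neg_one_pow, one_mul] at h1
      rw [he.add_one.neg_one_pow] at h2
      have := intermediate_value_Ioo' h3.le hcont.continuousOn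
      exact this ⟨by linarith, h1⟩
    · rw [ho.neg_one_pow] at h1
      rw [ho.add_one.neg_one_pow, one_mul] at h2
      have := intermediate_value_Ioo h3.le hcont.continuousOn
      exact this ⟨by linarith, h2⟩
  choose! z hz using hz
  have hzlt : ∀ a b, a < b → b < L → z a < z b := by
    intro a b hab hb
    have h1 := (hz a (by omega)).1.2
    have h2 := (hz b hb).1.1
    have h3 := hmono (a + 1) b hab hb.le
    linarith
  have hinj : Set.InjOn z (Finset.range L) := by
    intro a ha b hb hab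
    rw [Finset.coe_range, mem_Iio] at ha hb
    rcases lt_trichotomy a b with h | h | h
    · exact absurd hab (hzlt a b h hb).ne
    · exact h
    · exact absurd hab (hzlt b a h ha).ne'
  have hcard := Finset.card_image_of_injOn hinj
  rw [Finset.card_range] at hcard
  rw [← hcard]
  refine card_zeros_le hg ⟨y 0, ?_⟩ x₀ _ ?_
  · have := hs 0 (Nat.zero_le _)
    rw [pow_zero, one_mul] at this
    exact this.ne'
  · intro t ht
    obtain ⟨k, hk, rfl⟩ := Finset.mem_image.1 ht
    rw [Finset.mem_range] at hk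
    have h1 := hz k hk
    have h2 := hmono 0 k (Nat.zero_le _) hk.le
    have h3 := hmono (k + 1) L hk le_rfl
    exact ⟨⟨by linarith [h1.1.1], by linarith [h1.1.2]⟩, h1.2⟩

theorem pairs_count {n : ℕ} {g : ℝ → ℝ} (hg : g ∈ TrigPoly n) (x₀ : ℝ) {ι : Type*} (Q : Finset ι)
    (u v : ι → ℝ) (h1 : ∀ q ∈ Q, x₀ ≤ u q) (h2 : ∀ q ∈ Q, u q < v q)
    (h3 : ∀ q ∈ Q, v q < x₀ + 2 * π) (h4 : ∀ q ∈ Q, 0 < g (u q)) (h5 : ∀ q ∈ Q, g (v q) < 0)
    (h6 : ∀ q ∈ Q, ∀ q' ∈ Q, q ≠ q' → v q < u q' ∨ v q' < u q) : Q.card ≤ n := by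
  classical
  rcases Q.eq_empty_or_nonempty with rfl | hQ
  · simp
  have huinj : Set.InjOn u Q := by
    intro q hq q' hq' hqq
    by_contra hne
    rcases h6 q hq q' hq' hne with h | h
    · linarith [h2 q hq]
    · linarith [h2 q' hq']
  set U := Q.image u with hU
  have hUc : U.card = Q.card := Finset.card_image_of_injOn huinj
  set e := U.orderEmbOfFin hUc with he
  have hmem : ∀ k : Fin Q.card, ∃ q ∈ Q, u q = e k := by
    intro k
    exact Finset.mem_image.1 (Finset.orderEmbOfFin_mem U hUc k)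
  choose q hqQ hqe using hmem
  have hpos : 0 < Q.card := hQ.card_pos
  let idx : ℕ → Fin Q.card := fun k => ⟨min k (Q.card - 1), by omega⟩
  let y : ℕ → ℝ := fun k => if Even k then u (q (idx (k / 2))) else v (q (idx (k / 2)))
  have key := alt_count hg x₀ (2 * Q.card - 1) y ?_ ?_ ?_ ?_
  · omega
  · intro k hk
    rcases Nat.even_or_odd k with hev | hod
    · have h7 : ¬ Even (k + 1) := by
        rw [Nat.not_even_iff_odd]; exact hev.add_one
      have h8 : (k + 1) / 2 = k / 2 := by
        obtain ⟨r, hr⟩ := hev; omega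
      simp only [y, if_pos hev, if_neg h7, h8]
      exact h2 _ (hqQ _)
    · have h7 : Even (k + 1) := hod.add_one
      have h7' : ¬ Even k := by rw [Nat.not_even_iff_odd]; exact hod
      have h8 : (k + 1) / 2 = k / 2 + 1 := by
        obtain ⟨r, hr⟩ := hod; omega
      simp only [y, if_pos h7, if_neg h7', h8]
      have hlt : idx (k / 2) < idx (k / 2 + 1) := by
        rw [Fin.lt_def]
        simp only [idx]
        obtain ⟨r, hr⟩ := hod
        omega
      have hne : q (idx (k / 2)) ≠ q (idx (k / 2 + 1)) := by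
        intro h
        have := hqe (idx (k / 2))
        rw [h, hqe] at this
        exact (e.injective this ▸ hlt).ne rfl
      have hlt' : u (q (idx (k / 2))) < u (q (idx (k / 2 + 1))) := by
        rw [hqe, hqe]
        exact e.strictMono hlt
      rcases h6 _ (hqQ _) _ (hqQ _) hne with h | h
      · exact h
      · linarith [h2 _ (hqQ (idx (k / 2 + 1)))]
  · simp only [y, if_pos (show Even 0 from ⟨0, rfl⟩)]
    exact h1 _ (hqQ _)
  · have : ¬ Even (2 * Q.card - 1) := by
      rw [Nat.not_even_iff_odd]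
      exact ⟨Q.card - 1, by omega⟩
    simp only [y, if_neg this]
    exact h3 _ (hqQ _)
  · intro k hk
    rcases Nat.even_or_odd k with hev | hod
    · rw [hev.neg_one_pow, one_mul]
      simp only [y, if_pos hev]
      exact h4 _ (hqQ _)
    · have h7' : ¬ Even k := by rw [Nat.not_even_iff_odd]; exact hod
      rw [hod.neg_one_pow]
      simp only [y, if_neg h7']
      linarith [h5 _ (hqQ (idx (k / 2)))]

end Pool.Agent.Lib.MP_2a9019_an
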