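import Pool.Agent.Lib.MP_2a9019_an.L1
import Pool.Agent.Lib.MP_2a9019_an.Z3

/-!
A curve close to the comb makes an excursion into every tooth.
-/

namespace Pool.Agent.Lib.MP_2a9019_an

open Real Set Metric

/-- The times at which the curve `(φ, ψ)` is inside the hill over the tooth `(i, j)`. -/
def hill (a w v ε : ℝ) (φ ψ : ℝ → ℝ) (i j : ℕ) : Set ℝ :=
  {t | |φ t - (a + ((i : ℝ) + 1) * w)| < ε ∧ a + j * v + ε < ψ t ∧ ψ t < a + j * v + v - ε}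

/-- The closed version of `hill`. -/
def hillC (a w v ε : ℝ) (φ ψ : ℝ → ℝ) (i j : ℕ) : Set ℝ :=
  {t | |φ t - (a + ((i : ℝ) + 1) * w)| ≤ ε ∧ a + j * v + ε ≤ ψ t ∧ ψ t ≤ a + j * v + v - ε}

theorem hill_open (a w v ε : ℝ) {φ ψ : ℝ → ℝ} (hφ : Continuous φ) (hψ : Continuous ψ) (i j : ℕ) :
    IsOpen (hill a w v ε φ ψ i j) := by
  unfold hill
  refine (isOpen_lt ((hφ.sub continuous_const).abs) continuous_const).inter
    ((isOpen_lt continuous_const hψ).inter (isOpen_lt hψ continuous_const))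

theorem hillC_closed (a w v ε : ℝ) {φ ψ : ℝ → ℝ} (hφ : Continuous φ) (hψ : Continuous ψ) (i j : ℕ) :
    IsClosed (hillC a w v ε φ ψ i j) := by
  unfold hillC
  refine (isClosed_le ((hφ.sub continuous_const).abs) continuous_const).inter
    ((isClosed_le continuous_const hψ).inter (isClosed_le hψ continuous_const))

theorem hill_subset (a w v ε : ℝ) (φ ψ : ℝ → ℝ) (i j : ℕ) :
    hill a w v ε φ ψ i j ⊆ hillC a w v ε φ ψ i j := fun _ h => ⟨h.1.le, h.2.1.le, h.2.2.le⟩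

theorem hill_disjoint (a w v ε : ℝ) (φ ψ : ℝ → ℝ) (hw : 2 * ε < w) (hv : 0 < v) (hε : 0 < ε)
    (i j i' j' : ℕ) (t : ℝ) (h : t ∈ hill a w v ε φ ψ i j) (h' : t ∈ hill a w v ε φ ψ i' j') :
    i = i' ∧ j = j' := by
  have hwpos : 0 < w := by linarith
  constructor
  · have h1 := abs_lt.1 h.1
    have h2 := abs_lt.1 h'.1
    rcases lt_trichotomy i i' with hl | hl | hl
    · exfalso
      have h5 : (i : ℝ) + 1 ≤ i' := by exact_mod_cast hl
      have h6 : ((i : ℝ) + 1) * w + w ≤ ((i' : ℝ) + 1) * w := by nlinarith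
      linarith [h1.1, h1.2, h2.1, h2.2]
    · exact hl
    · exfalso
      have h5 : (i' : ℝ) + 1 ≤ i := by exact_mod_cast hl
      have h6 : ((i' : ℝ) + 1) * w + w ≤ ((i : ℝ) + 1) * w := by nlinarith
      linarith [h1.1, h1.2, h2.1, h2.2]
  · rcases lt_trichotomy j j' with hl | hl | hl
    · exfalso
      have h5 : (j : ℝ) + 1 ≤ j' := by exact_mod_cast hl
      have h6 : (j : ℝ) * v + v ≤ j' * v := by nlinarith
      linarith [h.2.1, h.2.2, h'.2.1, h'.2.2]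
    · exact hl
    · exfalso
      have h5 : (j' : ℝ) + 1 ≤ j := by exact_mod_cast hl
      have h6 : (j' : ℝ) * v + v ≤ j * v := by nlinarith
      linarith [h.2.1, h.2.2, h'.2.1, h'.2.2]

section
variable {a b w v τ ε : ℝ} {m k : ℕ} {φ ψ g : ℝ → ℝ}

theorem hill_boundary (hε : 0 < ε) (hw : 2 * ε < w) (hτ : 0 ≤ τ) (hv : 0 < v)
    (hτv : τ + 2 * ε < v)
    (hnear : ∀ t, ∃ p ∈ comb a b w v τ m k, dist (φ t, ψ t) p < ε) (i j : ℕ) (t : ℝ)
    (hC : t ∈ hillC a w v ε φ ψ i j) (hn : t ∉ hill a w v ε φ ψ i j) :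
    ψ t = a + j * v + ε := by
  by_contra hne
  have hlt : a + j * v + ε < ψ t := lt_of_le_of_ne hC.2.1 (Ne.symm hne)
  have hwpos : 0 < w := by linarith
  have h1 := abs_le.1 hC.1
  have hi : (0 : ℝ) ≤ (i : ℝ) * w := by positivity
  obtain ⟨i', h2, h3⟩ := near_tooth a b w v τ ε m k hv hτv hτ hε j (φ t, ψ t)
    (by simp only; linarith [h1.1]) hlt hC.2.2 (hnear t)
  simp only at h2 h3
  have h4 := abs_lt.1 h2
  have hii : (i' : ℕ) = i := by
    rcases lt_trichotomy (i' : ℕ) i with hl | hl | hl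
    · exfalso
      have h5 : ((i' : ℕ) : ℝ) + 1 ≤ i := by exact_mod_cast hl
      have h6 : (((i' : ℕ) : ℝ) + 1) * w + w ≤ ((i : ℝ) + 1) * w := by nlinarith
      linarith [h1.1, h1.2, h4.1, h4.2]
    · exact hl
    · exfalso
      have h5 : (i : ℝ) + 1 ≤ ((i' : ℕ) : ℝ) := by exact_mod_cast hl
      have h6 : ((i : ℝ) + 1) * w + w ≤ (((i' : ℕ) : ℝ) + 1) * w := by nlinarith
      linarith [h1.1, h1.2, h4.1, h4.2]
  rw [hii] at h2
  exact hn ⟨h2, hlt, by linarith⟩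

theorem hill_left (hε : 0 < ε) (hw : 2 * ε < w) (hτ : 0 ≤ τ) (hv : 0 < v)
    (hτv : τ + 2 * ε < v) (hφ : Continuous φ) (hg : ∀ t, HasDerivAt ψ (g t) t)
    (hnear : ∀ t, ∃ p ∈ comb a b w v τ m k, dist (φ t, ψ t) p < ε) (i j : ℕ) (s t₀ : ℝ)
    (hst : s ≤ t₀) (ht : t₀ ∈ hill a w v ε φ ψ i j) (hs : s ∉ hill a w v ε φ ψ i j) :
    ∃ u, s < u ∧ u < t₀ ∧ 0 < g u ∧ Icc u t₀ ⊆ hill a w v ε φ ψ i j := by
  have hψ : Continuous ψ := continuous_iff_continuousAt.2 fun t => (hg t).continuousAt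
  set A : Set ℝ := Icc s t₀ ∩ (hill a w v ε φ ψ i j)ᶜ with hA
  have hAc : IsClosed A := isClosed_Icc.inter (hill_open a w v ε hφ hψ i j).isClosed_compl
  have hAne : A.Nonempty := ⟨s, ⟨le_rfl, hst⟩, hs⟩
  have hAb : BddAbove A := ⟨t₀, fun t h => h.1.2⟩
  have hα := hAc.csSup_mem hAne hAb
  set α := sSup A with hαdef
  have hαlt : α < t₀ := lt_of_le_of_ne hα.1.2 fun h => hα.2 (h ▸ ht)
  have hin : ∀ t, α < t → t ≤ t₀ → t ∈ hill a w v ε φ ψ i j := by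
    intro t h1 h2
    by_contra h3
    have : t ∈ A := ⟨⟨hα.1.1.trans h1.le, h2⟩, h3⟩
    linarith [le_csSup hAb this]
  have hαC : α ∈ hillC a w v ε φ ψ i j := by
    have h1 : Ioc α t₀ ⊆ hillC a w v ε φ ψ i j := fun t h => hill_subset _ _ _ _ _ _ _ _ (hin t h.1 h.2)
    have h2 := (hillC_closed a w v ε hφ hψ i j).closure_subset_iff.2 h1
    rw [closure_Ioc hαlt.ne] at h2
    exact h2 ⟨le_rfl, hαlt.le⟩
  have hψα := hill_boundary hε hw hτ hv hτv hnear i j α hαC hα.2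
  obtain ⟨u, hu, hgu⟩ := exists_hasDerivAt_eq_slope ψ g hαlt hψ.continuousOn fun t _ => hg t
  refine ⟨u, lt_of_le_of_lt hα.1.1 hu.1, hu.2, ?_, fun t h => hin t (lt_of_lt_of_le hu.1 h.1) h.2⟩
  rw [hgu]
  exact div_pos (by rw [hψα]; linarith [ht.2.1]) (by linarith)

theorem hill_right (hε : 0 < ε) (hw : 2 * ε < w) (hτ : 0 ≤ τ) (hv : 0 < v)
    (hτv : τ + 2 * ε < v) (hφ : Continuous φ) (hg : ∀ t, HasDerivAt ψ (g t) t)
    (hnear : ∀ t, ∃ p ∈ comb a b w v τ m k, dist (φ t, ψ t) p < ε) (i j : ℕ) (s t₀ : ℝ)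
    (hst : t₀ ≤ s) (ht : t₀ ∈ hill a w v ε φ ψ i j) (hs : s ∉ hill a w v ε φ ψ i j) :
    ∃ u, t₀ < u ∧ u < s ∧ g u < 0 ∧ Icc t₀ u ⊆ hill a w v ε φ ψ i j := by
  have hψ : Continuous ψ := continuous_iff_continuousAt.2 fun t => (hg t).continuousAt
  set A : Set ℝ := Icc t₀ s ∩ (hill a w v ε φ ψ i j)ᶜ with hA
  have hAc : IsClosed A := isClosed_Icc.inter (hill_open a w v ε hφ hψ i j).isClosed_compl
  have hAne : A.Nonempty := ⟨s, ⟨hst, le_rfl⟩, hs⟩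
  have hAb : BddBelow A := ⟨t₀, fun t h => h.1.1⟩
  have hα := hAc.csInf_mem hAne hAb
  set α := sInf A with hαdef
  have hαlt : t₀ < α := lt_of_le_of_ne hα.1.1 fun h => hα.2 (h ▸ ht)
  have hin : ∀ t, t < α → t₀ ≤ t → t ∈ hill a w v ε φ ψ i j := by
    intro t h1 h2
    by_contra h3
    have : t ∈ A := ⟨⟨h2, h1.le.trans hα.1.2⟩, h3⟩
    linarith [csInf_le hAb this]
  have hαC : α ∈ hillC a w v ε φ ψ i j := by
    have h1 : Ico t₀ α ⊆ hillC a w v ε φ ψ i j := fun t h => hill_subset _ _ _ _ _ _ _ _ (hin t h.2 h.1)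
    have h2 := (hillC_closed a w v ε hφ hψ i j).closure_subset_iff.2 h1
    rw [closure_Ico hαlt.ne] at h2
    exact h2 ⟨hαlt.le, le_rfl⟩
  have hψα := hill_boundary hε hw hτ hv hτv hnear i j α hαC hα.2
  obtain ⟨u, hu, hgu⟩ := exists_hasDerivAt_eq_slope ψ g hαlt hψ.continuousOn fun t _ => hg t
  refine ⟨u, hu.1, lt_of_lt_of_le hu.2 hα.1.2, ?_, fun t h => hin t (lt_of_le_of_lt h.2 hu.2) h.1⟩
  rw [hgu]
  exact div_neg_of_neg_of_pos (by rw [hψα]; linarith [ht.2.1]) (by linarith)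

end

end Pool.Agent.Lib.MP_2a9019_an
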