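import Pool.Agent.Lib.MP_2a9019_an.L2

/-!
The number of teeth of the comb is at most `n + 1` if a curve of the class `T_n²` is closer than `ε`.
-/

namespace Pool.Agent.Lib.MP_2a9019_an

open Real Set Metric

theorem comb_count {a b w v τ ε : ℝ} {m k n : ℕ} (hab : a < b) (hε : 0 < ε) (hw : 2 * ε < w)
    (hτ : 2 * ε < τ) (hτv : τ + 2 * ε < v) (hm : 0 < m) (hk : 0 < k) (hmw : a + m * w ≤ b)
    (hkv : a + (k - 1) * v + τ ≤ b) (γ : Set (ℝ × ℝ)) (hγ : γ ∈ TrigCurves n)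
    (hd : hausdorffDist (comb a b w v τ m k) γ < ε) : m * k ≤ n + 1 := by
  classical
  obtain ⟨φ, hφ, ψ, hψ, rfl⟩ := hγ
  have hτ0 : 0 ≤ τ := by linarith
  have hv : 0 < v := by linarith
  have hwpos : 0 < w := by linarith
  have hφc := TrigPoly_continuous hφ
  have hψc := TrigPoly_continuous hψ
  have hcomb := comb_continua a b w v τ m k hab hwpos hv hτ0 hm hk hmw hkv
  set γ := (fun t : ℝ => (φ t, ψ t)) '' Icc 0 (2 * π) with hγ
  have hγne : γ.Nonempty := ⟨_, mem_image_of_mem _ ⟨le_rfl, by positivity⟩⟩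
  have hγb : Bornology.IsBounded γ :=
    (isCompact_Icc.image (hφc.prodMk hψc)).isBounded
  have hfin : hausdorffEDist (comb a b w v τ m k) γ ≠ ⊤ :=
    hausdorffEDist_ne_top_of_nonempty_of_bounded hcomb.2.1.nonempty hγne hcomb.1.isBounded hγb
  obtain ⟨g, hgT, hg⟩ := TrigPoly_deriv hψ
  have hper1 := TrigPoly_periodic hφ
  have hper2 := TrigPoly_periodic hψ
  have hnear0 : ∀ t ∈ Icc (0 : ℝ) (2 * π), ∃ p ∈ comb a b w v τ m k, dist (φ t, ψ t) p < ε := by
    intro t ht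
    obtain ⟨p, hp, hpd⟩ := exists_dist_lt_of_hausdorffDist_lt'
      (mem_image_of_mem (fun t : ℝ => (φ t, ψ t)) ht) hd hfin
    exact ⟨p, hp, by rwa [dist_comm]⟩
  have hpp1 : Function.Periodic φ (2 * π) := hper1
  have hpp2 : Function.Periodic ψ (2 * π) := hper2
  have hnear : ∀ t, ∃ p ∈ comb a b w v τ m k, dist (φ t, ψ t) p < ε := by
    intro t
    have hpair : Function.Periodic (fun t => (φ t, ψ t)) (2 * π) := fun t => by
      simp only [hper1 t, hper2 t]
    obtain ⟨s, hs, hst⟩ := hpair.exists_mem_Ico₀ two_pi_pos t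
    have := hnear0 s ⟨hs.1, hs.2.le⟩
    rwa [← hst] at this
  -- times at the tips
  have htip : ∀ q : Fin m × Fin k, ∃ t ∈ Icc (0 : ℝ) (2 * π),
      t ∈ hill a w v ε φ ψ q.1 q.2 := by
    intro q
    obtain ⟨p, hp, hpd⟩ := exists_dist_lt_of_hausdorffDist_lt (tip_mem a b w v τ m k hτ0 q) hd hfin
    obtain ⟨t, ht, rfl⟩ := hp
    rw [Prod.dist_eq, max_lt_iff, Real.dist_eq, Real.dist_eq] at hpd
    simp only at hpd
    have h1 := abs_lt.1 hpd.2
    refine ⟨t, ht, ?_, by linarith [h1.2], by linarith [h1.1]⟩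
    rw [abs_sub_comm]
    exact hpd.1
  choose t ht hth using htip
  set Q : Finset (Fin m × Fin k) :=
    Finset.univ.filter (fun q => (0 : ℝ) ∉ hill a w v ε φ ψ q.1 q.2) with hQ
  have hcard : m * k ≤ Q.card + 1 := by
    have h1 : (Finset.univ.filter (fun q : Fin m × Fin k =>
        ¬ ((0 : ℝ) ∉ hill a w v ε φ ψ q.1 q.2))).card ≤ 1 := by
      refine Finset.card_le_one.2 fun q hq q' hq' => ?_
      have h2 := not_not.1 (Finset.mem_filter.1 hq).2
      have h3 := not_not.1 (Finset.mem_filter.1 hq').2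
      have := hill_disjoint a w v ε φ ψ hw hv hε _ _ _ _ 0 h2 h3
      exact Prod.ext (Fin.ext this.1) (Fin.ext this.2)
    have h2 : Q.card + (Finset.univ.filter (fun q : Fin m × Fin k =>
        ¬ ((0 : ℝ) ∉ hill a w v ε φ ψ q.1 q.2))).card
        = (Finset.univ : Finset (Fin m × Fin k)).card :=
      Finset.card_filter_add_card_filter_not _
    rw [Finset.card_univ, Fintype.card_prod, Fintype.card_fin, Fintype.card_fin] at h2
    omega
  have h2pi : ∀ q : Fin m × Fin k, (0 : ℝ) ∉ hill a w v ε φ ψ q.1 q.2 →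
      (2 * π : ℝ) ∉ hill a w v ε φ ψ q.1 q.2 := by
    intro q h h'
    apply h
    have e1 : φ (2 * π) = φ 0 := by simpa using hper1 0
    have e2 : ψ (2 * π) = ψ 0 := by simpa using hper2 0
    simp only [hill, mem_ofPred_eq, e1, e2] at h' ⊢
    exact h'
  have hl : ∀ q ∈ Q, ∃ u, 0 < u ∧ u < t q ∧ 0 < g u ∧ Icc u (t q) ⊆ hill a w v ε φ ψ q.1 q.2 := by
    intro q hq
    exact hill_left hε hw hτ0 hv hτv hφc hg hnear q.1 q.2 0 (t q) (ht q).1 (hth q)
      (Finset.mem_filter.1 hq).2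
  have hr : ∀ q ∈ Q, ∃ u, t q < u ∧ u < 2 * π ∧ g u < 0 ∧
      Icc (t q) u ⊆ hill a w v ε φ ψ q.1 q.2 := by
    intro q hq
    exact hill_right hε hw hτ0 hv hτv hφc hg hnear q.1 q.2 (2 * π) (t q) (ht q).2 (hth q)
      (h2pi q (Finset.mem_filter.1 hq).2)
  choose! u hu0 hut hgu hIu using hl
  choose! u' hu'0 hu't hgu' hIu' using hr
  have hfinal := pairs_count hgT 0 Q u u' (fun q hq => (hu0 q hq).le)
    (fun q hq => (hut q hq).trans (hu'0 q hq)) (fun q hq => by rw [zero_add]; exact hu't q hq)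
    hgu hgu' ?_
  · omega
  · intro q hq q' hq' hne
    by_contra hcon
    rw [not_or, not_lt, not_lt] at hcon
    have hsub : ∀ p ∈ Q, Icc (u p) (u' p) ⊆ hill a w v ε φ ψ p.1 p.2 := by
      intro p hp s hs
      rcases le_total s (t p) with h | h
      · exact hIu p hp ⟨hs.1, h⟩
      · exact hIu' p hp ⟨h, hs.2⟩
    have h1 : max (u q) (u q') ∈ hill a w v ε φ ψ q.1 q.2 :=
      hsub q hq ⟨le_max_left _ _, max_le ((hut q hq).trans (hu'0 q hq)).le hcon.1⟩
    have h2 : max (u q) (u q') ∈ hill a w v ε φ ψ q'.1 q'.2 :=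
      hsub q' hq' ⟨le_max_right _ _, max_le hcon.2 ((hut q' hq').trans (hu'0 q' hq')).le⟩
    have := hill_disjoint a w v ε φ ψ hw hv hε _ _ _ _ _ h1 h2
    exact hne (Prod.ext (Fin.ext this.1) (Fin.ext this.2))

end Pool.Agent.Lib.MP_2a9019_an
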