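import Pool.Agent.Lib.MP_2a9019_an.L3
import Pool.Agent.Lib.MP_2a9019_an.B1

/-!
The lower bound `e_n ≥ (b - a)/(4k)` whenever `n + 2 ≤ 2k²`.
-/

namespace Pool.Agent.Lib.MP_2a9019_an

open Real Set Metric Filter Topology

theorem worst_lower {a b : ℝ} (hab : a < b) (n k : ℕ) (hk : 0 < k) (hnk : n + 2 ≤ 2 * k ^ 2) :
    (b - a) / (4 * k) ≤ worstDist a b n := by
  have hkR : (0 : ℝ) < k := by exact_mod_cast hk
  have hba : 0 < b - a := by linarith
  refine le_of_forall_lt fun c hc => ?_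
  obtain ⟨ε, hε1, hε2⟩ := exists_between (max_lt hc (show (0 : ℝ) < (b - a) / (4 * k) by positivity))
  have hε : 0 < ε := (le_max_right _ _).trans_lt hε1
  have hcε : c < ε := (le_max_left _ _).trans_lt hε1
  refine hcε.trans_le ?_
  have h4 : 4 * ε < (b - a) / k := by
    have : (b - a) / (4 * k) = (b - a) / k / 4 := by field_simp
    linarith
  have hw : (b - a) / ((2 * k : ℕ) : ℝ) = (b - a) / k / 2 := by
    push_cast; field_simp
  refine le_worstDist (F := comb a b ((b - a) / ((2 * k : ℕ) : ℝ)) ((b - a) / k)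
    ((b - a) / k / 2) (2 * k) k) ?_ fun γ hγ => ?_
  · refine comb_continua _ _ _ _ _ _ _ hab (by positivity) (by positivity) (by positivity)
      (by omega) hk ?_ ?_
    · have : ((2 * k : ℕ) : ℝ) * ((b - a) / ((2 * k : ℕ) : ℝ)) = b - a := by
        field_simp
      linarith
    · have : (k : ℝ) * ((b - a) / k) = b - a := by field_simp
      have h5 : 0 < (b - a) / k := by positivity
      nlinarith
  · by_contra hcon
    rw [not_le] at hcon
    have := comb_count hab hε (by rw [hw]; linarith) (by linarith) (by linarith)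
      (show 0 < 2 * k by omega) hk ?_ ?_ γ hγ hcon
    · nlinarith
    · have : ((2 * k : ℕ) : ℝ) * ((b - a) / ((2 * k : ℕ) : ℝ)) = b - a := by
        field_simp
      linarith
    · have : (k : ℝ) * ((b - a) / k) = b - a := by field_simp
      have h5 : 0 < (b - a) / k := by positivity
      nlinarith

theorem lower_limit : Tendsto (fun n : ℕ => 1 / (4 * (√((1 + 2 / (n : ℝ)) / 2) + 1 / √(n : ℝ))))
    atTop (𝓝 (1 / √8)) := by
  have h1 : Tendsto (fun n : ℕ => 2 / (n : ℝ)) atTop (𝓝 0) :=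
    tendsto_const_nhds.div_atTop tendsto_natCast_atTop_atTop
  have h2 : Tendsto (fun n : ℕ => 1 / √(n : ℝ)) atTop (𝓝 0) :=
    tendsto_const_nhds.div_atTop (Real.tendsto_sqrt_atTop.comp tendsto_natCast_atTop_atTop)
  have h3 : Tendsto (fun n : ℕ => √((1 + 2 / (n : ℝ)) / 2)) atTop (𝓝 (√((1 + 0) / 2))) :=
    ((tendsto_const_nhds.add h1).div_const 2).sqrt
  have h4 := (h3.add h2).const_mul 4
  have e : 4 * (√((1 + 0 : ℝ) / 2) + 0) = √8 := by
    rw [add_zero, add_zero]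
    have : (8 : ℝ) = 16 * (1 / 2) := by norm_num
    rw [this, Real.sqrt_mul (by norm_num)]
    have : √(16 : ℝ) = 4 := by
      rw [show (16 : ℝ) = 4 ^ 2 by norm_num, Real.sqrt_sq (by norm_num)]
    rw [this]
  rw [e] at h4
  exact tendsto_const_nhds.div h4 (by positivity)

theorem lower_bound {a b : ℝ} (hab : a < b) : ((1 / √8 : ℝ) : EReal) ≤ c₂ a b := by
  have hlim : Tendsto (fun n : ℕ =>
      ((1 / (4 * (√((1 + 2 / (n : ℝ)) / 2) + 1 / √(n : ℝ))) : ℝ) : EReal)) atTop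
      (𝓝 ((1 / √8 : ℝ) : EReal)) := (continuous_coe_real_ereal.tendsto _).comp lower_limit
  rw [← hlim.limsup_eq]
  refine limsup_le_limsup ?_
  filter_upwards [eventually_gt_atTop 0] with n hn
  rw [EReal.coe_le_coe_iff]
  have hnR : (0 : ℝ) < n := by exact_mod_cast hn
  have hba : 0 < b - a := by linarith
  set k : ℕ := ⌈√(((n : ℝ) + 2) / 2)⌉₊ with hk
  have hs : 0 < √(((n : ℝ) + 2) / 2) := Real.sqrt_pos.2 (by positivity)
  have hk1 : √(((n : ℝ) + 2) / 2) ≤ k := Nat.le_ceil _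
  have hk2 : (k : ℝ) < √(((n : ℝ) + 2) / 2) + 1 := Nat.ceil_lt_add_one hs.le
  have hkpos : 0 < k := Nat.ceil_pos.2 hs
  have hkR : (0 : ℝ) < k := by exact_mod_cast hkpos
  have hnk : n + 2 ≤ 2 * k ^ 2 := by
    have h1 : ((n : ℝ) + 2) / 2 ≤ (k : ℝ) ^ 2 := by
      have := Real.sq_sqrt (show (0 : ℝ) ≤ ((n : ℝ) + 2) / 2 by positivity)
      nlinarith
    have h2 : ((n + 2 : ℕ) : ℝ) ≤ ((2 * k ^ 2 : ℕ) : ℝ) := by push_cast; linarith
    exact_mod_cast h2
  have hw := worst_lower hab n k hkpos hnk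
  have hsn : 0 < √(n : ℝ) := Real.sqrt_pos.2 hnR
  have h1 : √(n : ℝ) * ((b - a) / (4 * k)) / (b - a) ≤ √(n : ℝ) * worstDist a b n / (b - a) := by
    gcongr
  refine le_trans ?_ h1
  have h2 : √(n : ℝ) * ((b - a) / (4 * k)) / (b - a) = √(n : ℝ) / (4 * k) := by
    field_simp
  rw [h2]
  have h3 : √((1 + 2 / (n : ℝ)) / 2) = √(((n : ℝ) + 2) / 2) / √(n : ℝ) := by
    rw [← Real.sqrt_div (by positivity)]
    congr 1
    field_simp
  rw [h3, ← add_div]
  have h4 : (1 : ℝ) / (4 * ((√(((n : ℝ) + 2) / 2) + 1) / √(n : ℝ)))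
      = √(n : ℝ) / (4 * (√(((n : ℝ) + 2) / 2) + 1)) := by
    field_simp
  rw [h4]
  gcongr

end Pool.Agent.Lib.MP_2a9019_an
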