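import Mathlib

/-!
Row P1 (Mathlib only). Piecewise linear interpolation of a sequence `p : ℤ → ℝ`.
-/

namespace Pool.Agent.Lib.MP_2a9019_an

/-- Piecewise linear interpolation of `p : ℤ → ℝ`. -/
noncomputable def lin (p : ℤ → ℝ) (s : ℝ) : ℝ := p ⌊s⌋ + Int.fract s * (p (⌊s⌋ + 1) - p ⌊s⌋)

theorem lin_int (p : ℤ → ℝ) (k : ℤ) : lin p k = p k := by
  unfold lin
  rw [Int.floor_intCast, Int.fract_intCast]
  ring

theorem lin_periodic (p : ℤ → ℝ) (E : ℤ) (hp : ∀ k, p (k + E) = p k) (s : ℝ) :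
    lin p (s + E) = lin p s := by
  unfold lin
  rw [Int.floor_add_intCast, Int.fract_add_intCast]
  have h : ⌊s⌋ + E + 1 = (⌊s⌋ + 1) + E := by ring
  rw [h, hp, hp]

private theorem p1_steps (p : ℤ → ℝ) (δ : ℝ) (hp : ∀ k, |p (k + 1) - p k| ≤ δ) (k : ℤ) (m : ℕ) :
    |p (k + m) - p k| ≤ δ * m := by
  induction m with
  | zero => simp
  | succ m ih =>
    have e : p (k + ((m + 1 : ℕ) : ℤ)) - p k = (p ((k + m) + 1) - p (k + m)) + (p (k + m) - p k) := by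
      have : k + ((m + 1 : ℕ) : ℤ) = (k + m) + 1 := by push_cast; ring
      rw [this]
      ring
    rw [e]
    have h1 := abs_add_le (p ((k + m) + 1) - p (k + m)) (p (k + m) - p k)
    have h2 := hp (k + m)
    push_cast
    linarith

private theorem p1_le (p : ℤ → ℝ) (δ : ℝ) (hp : ∀ k, |p (k + 1) - p k| ≤ δ) (s s' : ℝ) (h : s ≤ s') :
    |lin p s' - lin p s| ≤ δ * (s' - s) := by
  have hs : (⌊s⌋ : ℝ) + Int.fract s = s := Int.floor_add_fract s
  have hs' : (⌊s'⌋ : ℝ) + Int.fract s' = s' := Int.floor_add_fract s'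
  have hf0 := Int.fract_nonneg s'
  have hf1 := (Int.fract_lt_one s).le
  rcases (Int.floor_le_floor h).eq_or_lt with hab | hab
  · have e : lin p s' - lin p s = (s' - s) * (p (⌊s⌋ + 1) - p ⌊s⌋) := by
      unfold lin
      rw [← hab]
      rw [← hab] at hs'
      have e1 : Int.fract s' = s' - ⌊s⌋ := by linarith
      have e2 : Int.fract s = s - ⌊s⌋ := by linarith
      rw [e1, e2]
      ring
    rw [e, abs_mul, abs_of_nonneg (by linarith : 0 ≤ s' - s), mul_comm]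
    exact mul_le_mul_of_nonneg_right (hp _) (by linarith)
  · obtain ⟨m, hm⟩ : ∃ m : ℕ, ⌊s'⌋ = ⌊s⌋ + 1 + m := by
      refine ⟨(⌊s'⌋ - (⌊s⌋ + 1)).toNat, ?_⟩
      have : 0 ≤ ⌊s'⌋ - (⌊s⌋ + 1) := by omega
      rw [Int.toNat_of_nonneg this]
      ring
    have h1 := p1_steps p δ hp (⌊s⌋ + 1) m
    have h2 : |Int.fract s' * (p (⌊s'⌋ + 1) - p ⌊s'⌋)| ≤ δ * Int.fract s' := by
      rw [abs_mul, abs_of_nonneg hf0, mul_comm]
      exact mul_le_mul_of_nonneg_right (hp _) hf0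
    have h3 : |(1 - Int.fract s) * (p (⌊s⌋ + 1) - p ⌊s⌋)| ≤ δ * (1 - Int.fract s) := by
      rw [abs_mul, abs_of_nonneg (by linarith : 0 ≤ 1 - Int.fract s), mul_comm]
      exact mul_le_mul_of_nonneg_right (hp _) (by linarith)
    have e : lin p s' - lin p s = Int.fract s' * (p (⌊s'⌋ + 1) - p ⌊s'⌋)
        + (p (⌊s⌋ + 1 + m) - p (⌊s⌋ + 1)) + (1 - Int.fract s) * (p (⌊s⌋ + 1) - p ⌊s⌋) := by
      have e1 : p (⌊s⌋ + 1 + (m : ℤ)) = p ⌊s'⌋ := by rw [hm]
      rw [e1]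
      unfold lin
      ring
    have h4 := abs_add_three (Int.fract s' * (p (⌊s'⌋ + 1) - p ⌊s'⌋))
      (p (⌊s⌋ + 1 + m) - p (⌊s⌋ + 1)) ((1 - Int.fract s) * (p (⌊s⌋ + 1) - p ⌊s⌋))
    rw [e]
    have h5 : (⌊s'⌋ : ℝ) = (⌊s⌋ : ℝ) + 1 + m := by
      rw [hm]
      push_cast
      ring
    have h6 : δ * (s' - s) = δ * Int.fract s' + δ * m + δ * (1 - Int.fract s) := by
      have : s' - s = Int.fract s' + m + (1 - Int.fract s) := by linarith
      rw [this]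
      ring
    rw [h6]
    linarith

theorem lin_lipschitz (p : ℤ → ℝ) (δ : ℝ) (hp : ∀ k, |p (k + 1) - p k| ≤ δ) (s s' : ℝ) :
    |lin p s - lin p s'| ≤ δ * |s - s'| := by
  rcases le_total s s' with h | h
  · rw [abs_sub_comm (lin p s), abs_sub_comm s, abs_of_nonneg (by linarith : 0 ≤ s' - s)]
    exact p1_le p δ hp s s' h
  · rw [abs_of_nonneg (by linarith : 0 ≤ s - s')]
    exact p1_le p δ hp s' s h

/-- A point between two consecutive values which are both within `r` of `x` is within `r` of `x`. -/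
theorem lin_near (p : ℤ → ℝ) (x r s : ℝ) (h0 : |p ⌊s⌋ - x| ≤ r) (h1 : |p (⌊s⌋ + 1) - x| ≤ r) :
    |lin p s - x| ≤ r := by
  have hf0 := Int.fract_nonneg s
  have hf1 := (Int.fract_lt_one s).le
  have e : lin p s - x = (1 - Int.fract s) * (p ⌊s⌋ - x) + Int.fract s * (p (⌊s⌋ + 1) - x) := by
    unfold lin
    ring
  have h2 := abs_add_le ((1 - Int.fract s) * (p ⌊s⌋ - x)) (Int.fract s * (p (⌊s⌋ + 1) - x))
  rw [abs_mul, abs_mul, abs_of_nonneg hf0, abs_of_nonneg (by linarith : 0 ≤ 1 - Int.fract s)] at h2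
  rw [e]
  have h3 := mul_le_mul_of_nonneg_left h0 (by linarith : 0 ≤ 1 - Int.fract s)
  have h4 := mul_le_mul_of_nonneg_left h1 hf0
  linarith

end Pool.Agent.Lib.MP_2a9019_an
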