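import Mathlib

/-!
Row W1 (Mathlib only). In a connected graph with at most `M ≥ 1` vertices there is a closed
walk through all vertices with at most `2M` steps, here written as a periodic sequence which may
pause. Recipe: first show: for every `k` with `1 ≤ k ≤ card V` there is a closed walk `w : G.Walk v v`
with `2 (k-1)` steps whose support has at least `k` elements (induction: if the support is not
everything, connectedness gives an edge `x y` with `x` in the support and `y` not in it; insert
`x → y → x` at a visit of `x`: `w.takeUntil x`, `w.dropUntil x`). Then `p k = w.getVert ((k mod 2M).toNat)`.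
-/

namespace Pool.Agent.Lib.MP_2a9019_an

private lemma w1_closed {V : Type*} [Fintype V] [DecidableEq V] (G : SimpleGraph V)
    (hG : G.Connected) (v : V) : ∀ k : ℕ, k + 1 ≤ Fintype.card V →
      ∃ w : G.Walk v v, w.length = 2 * k ∧ k + 1 ≤ w.support.toFinset.card := by
  intro k
  induction k with
  | zero =>
    intro _
    exact ⟨SimpleGraph.Walk.nil, by simp, by simp⟩
  | succ k ih =>
    intro hk
    obtain ⟨w, hw1, hw2⟩ := ih (by omega)
    by_cases hall : k + 2 ≤ w.support.toFinset.card
    · -- pause not needed: insert a detour anyway
      have hcard : 2 ≤ Fintype.card V := by omega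
      obtain ⟨y, hy⟩ := Fintype.exists_ne_of_one_lt_card (by omega : 1 < Fintype.card V) v
      obtain ⟨q⟩ := hG.preconnected v y
      cases q with
      | nil => exact absurd rfl hy
      | cons h q' =>
        refine ⟨SimpleGraph.Walk.cons h (SimpleGraph.Walk.cons h.symm w), ?_, ?_⟩
        · simp only [SimpleGraph.Walk.length_cons]
          omega
        · refine hall.trans (Finset.card_le_card (fun z hz => ?_))
          simp only [SimpleGraph.Walk.support_cons, List.toFinset_cons, Finset.mem_insert]
          exact Or.inr (Or.inr hz)
    · have hlt : w.support.toFinset.card < Fintype.card V := by omega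
      obtain ⟨y, hy⟩ : ∃ y, y ∉ w.support := by
        by_contra hcon
        push Not at hcon
        have : w.support.toFinset = Finset.univ := by
          ext z
          simp [hcon z]
        rw [this, Finset.card_univ] at hlt
        exact lt_irrefl _ hlt
      obtain ⟨q⟩ := hG.preconnected v y
      obtain ⟨d, _, hd1, hd2⟩ := q.exists_boundary_dart {z | z ∈ w.support}
        (by simp) hy
      have hx : d.fst ∈ w.support := hd1
      have hyn : d.snd ∉ w.support := hd2
      refine ⟨(w.takeUntil d.fst hx).append (SimpleGraph.Walk.cons d.adj
        (SimpleGraph.Walk.cons d.adj.symm (w.dropUntil d.fst hx))), ?_, ?_⟩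
      · have h1 := congrArg SimpleGraph.Walk.length (w.take_spec hx)
        rw [SimpleGraph.Walk.length_append] at h1
        rw [SimpleGraph.Walk.length_append]
        simp only [SimpleGraph.Walk.length_cons]
        omega
      · have hsub : insert d.snd w.support.toFinset ⊆ ((w.takeUntil d.fst hx).append
            (SimpleGraph.Walk.cons d.adj
            (SimpleGraph.Walk.cons d.adj.symm (w.dropUntil d.fst hx)))).support.toFinset := by
          intro z hz
          rw [List.mem_toFinset, SimpleGraph.Walk.mem_support_append_iff]
          rw [Finset.mem_insert, List.mem_toFinset] at hz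
          rcases hz with rfl | hz
          · right
            simp
          · rw [← w.take_spec hx, SimpleGraph.Walk.mem_support_append_iff] at hz
            rcases hz with hz | hz
            · exact Or.inl hz
            · right
              simp only [SimpleGraph.Walk.support_cons, List.mem_cons]
              exact Or.inr (Or.inr hz)
        have h2 := Finset.card_le_card hsub
        rw [Finset.card_insert_of_notMem (by simpa using hyn)] at h2
        omega

theorem exists_periodic_walk {V : Type*} [Fintype V] (G : SimpleGraph V) (hG : G.Connected)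
    (M : ℕ) (hM : 1 ≤ M) (hV : Fintype.card V ≤ M) :
    ∃ p : ℤ → V, (∀ k, p (k + 2 * M) = p k) ∧ (∀ k, p k = p (k + 1) ∨ G.Adj (p k) (p (k + 1))) ∧
      (∀ v, ∃ k, p k = v) := by
  classical
  obtain ⟨v⟩ := hG.nonempty
  have hc : 0 < Fintype.card V := Fintype.card_pos_iff.2 ⟨v⟩
  obtain ⟨w, hw1, hw2⟩ := w1_closed G hG v (Fintype.card V - 1) (by omega)
  have hlen : w.length + 2 ≤ 2 * M := by omega
  have hall : ∀ z, z ∈ w.support := by
    intro z
    have h1 : w.support.toFinset = Finset.univ :=
      Finset.eq_univ_of_card _ (le_antisymm (Finset.card_le_univ _) (by omega))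
    have h2 : z ∈ w.support.toFinset := by rw [h1]; exact Finset.mem_univ _
    simpa using h2
  have hM' : (0 : ℤ) < 2 * M := by exact_mod_cast (by omega : 0 < 2 * M)
  refine ⟨fun k => w.getVert ((k % (2 * M : ℤ)).toNat), ?_, ?_, ?_⟩
  · intro k
    simp only [Int.add_emod_right]
  · intro k
    obtain ⟨r, hr⟩ : ∃ r : ℕ, (r : ℤ) = k % (2 * M : ℤ) :=
      ⟨(k % (2 * M : ℤ)).toNat, Int.toNat_of_nonneg (Int.emod_nonneg _ hM'.ne')⟩
    have hrlt : r < 2 * M := by
      have := Int.emod_lt_of_pos k hM'
      rw [← hr] at this
      exact_mod_cast this
    have h1 : (k % (2 * M : ℤ)).toNat = r := by rw [← hr]; simp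
    have h2 : (k + 1) % (2 * M : ℤ) = ((r : ℤ) + 1) % (2 * M : ℤ) := by
      rw [hr, Int.emod_add_emod]
    simp only []
    rw [h1, h2]
    by_cases h3 : r + 1 < 2 * M
    · have h4 : (((r : ℤ) + 1) % (2 * M : ℤ)).toNat = r + 1 := by
        rw [Int.emod_eq_of_lt (by positivity) (by exact_mod_cast h3)]
        omega
      rw [h4]
      by_cases h5 : r < w.length
      · exact Or.inr (w.adj_getVert_succ h5)
      · left
        rw [w.getVert_of_length_le (by omega), w.getVert_of_length_le (by omega)]
    · have h4 : r + 1 = 2 * M := by omega
      have h5 : (((r : ℤ) + 1) % (2 * M : ℤ)).toNat = 0 := by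
        have : (r : ℤ) + 1 = 2 * M := by exact_mod_cast h4
        rw [this, Int.emod_self]
        rfl
      rw [h5]
      left
      rw [w.getVert_of_length_le (by omega), w.getVert_zero]
  · intro z
    obtain ⟨i, hi, hi2⟩ := SimpleGraph.Walk.mem_support_iff_exists_getVert.1 (hall z)
    refine ⟨(i : ℤ), ?_⟩
    simp only []
    rw [Int.emod_eq_of_lt (by positivity) (by
      have : i < 2 * M := by omega
      exact_mod_cast this)]
    simpa using hi

end Pool.Agent.Lib.MP_2a9019_an
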