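import Pool.Agent.Lib.MP_2a9019_an.B1
import Pool.Agent.Lib.MP_2a9019_an.F6
import Pool.Agent.Lib.MP_2a9019_an.W1
import Pool.Agent.Lib.MP_2a9019_an.P1
import Pool.Agent.Lib.MP_2a9019_an.C1

/-!
The covering bound: a continuum which is covered by `M` squares of side `2r` is at distance at most
`r (1 + M / N)` from a curve of the class `T_{N-1}²`.
-/

namespace Pool.Agent.Lib.MP_2a9019_an

open Real Set Metric

theorem periodic_emod {ι : Type*} (p : ℤ → ι) (c : ℤ) (hp : ∀ k, p (k + c) = p k) (k : ℤ) :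
    p (k % c) = p k := by
  have h : Function.Periodic p c := hp
  have h1 := h.int_mul (k / c) (k % c)
  rw [Int.cast_id, mul_comm, Int.emod_add_mul_ediv] at h1
  exact h1.symm

theorem lin_approx (N M : ℕ) (hN : 1 ≤ N) (hM : 1 ≤ M) (r : ℝ) (hr : 0 ≤ r) (X : ℤ → ℝ)
    (hX : ∀ k, X (k + 2 * M) = X k) (hX' : ∀ k, |X (k + 1) - X k| ≤ 2 * r) :
    ∃ P ∈ TrigPoly (N - 1), ∀ t, |P t - lin X (t * (M / π))| ≤ r * M / N := by
  have hMR : (0 : ℝ) < M := by exact_mod_cast hM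
  have hNR : (0 : ℝ) < N := by exact_mod_cast hN
  have hK : 0 ≤ 2 * r * (M / π) := by positivity
  obtain ⟨K, hKe⟩ : ∃ K : NNReal, (K : ℝ) = 2 * r * (M / π) := ⟨⟨_, hK⟩, rfl⟩
  have hLip : LipschitzWith K (fun t => lin X (t * (M / π))) := by
    refine LipschitzWith.of_dist_le_mul fun s t => ?_
    rw [Real.dist_eq, Real.dist_eq]
    refine (lin_lipschitz X (2 * r) hX' _ _).trans (le_of_eq ?_)
    rw [← sub_mul, abs_mul, abs_of_pos (show (0 : ℝ) < M / π by positivity), hKe]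
    ring
  have hper : ∀ t, (fun t => lin X (t * (M / π))) (t + 2 * π) = (fun t => lin X (t * (M / π))) t := by
    intro t
    have h1 : (t + 2 * π) * (M / π) = t * (M / π) + ((2 * M : ℤ) : ℝ) := by
      push_cast
      field_simp
    simp only
    rw [h1]
    exact lin_periodic X (2 * M) hX _
  obtain ⟨P, hP, hPt⟩ := favard N hN K _ hLip hper
  refine ⟨P, hP, fun t => (hPt t).trans (le_of_eq ?_)⟩
  rw [hKe]
  field_simp

theorem cover_bound {F : Set (ℝ × ℝ)} (hF : IsConnected F) {ι : Type*} [Fintype ι]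
    (z : ι → ℝ × ℝ) (r : ℝ) (hr : 0 ≤ r) (hcov : F ⊆ ⋃ i, closedBall (z i) r)
    (hmeet : ∀ i, (closedBall (z i) r ∩ F).Nonempty) (M N : ℕ) (hM : 1 ≤ M)
    (hcard : Fintype.card ι ≤ M) (hN : 1 ≤ N) : bestDist (N - 1) F ≤ r + r * M / N := by
  have hMR : (0 : ℝ) < M := by exact_mod_cast hM
  have hNR : (0 : ℝ) < N := by exact_mod_cast hN
  obtain ⟨p, hp1, hp2, hp3⟩ := exists_periodic_walk (meetGraph F fun i => closedBall (z i) r)
    (meetGraph_connected F hF _ (fun i => isClosed_closedBall) hcov hmeet) M hM hcard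
  -- a point of `F` in two consecutive balls
  have hq : ∀ k, ∃ q ∈ F, dist q (z (p k)) ≤ r ∧ dist q (z (p (k + 1))) ≤ r := by
    intro k
    rcases hp2 k with h | h
    · obtain ⟨q, hq1, hq2⟩ := hmeet (p k)
      exact ⟨q, hq2, mem_closedBall.1 hq1, by rw [← h]; exact mem_closedBall.1 hq1⟩
    · obtain ⟨q, hq1, hq2⟩ := h.2
      exact ⟨q, hq2, mem_closedBall.1 hq1.1, mem_closedBall.1 hq1.2⟩
  set X : ℤ → ℝ := fun k => (z (p k)).1 with hXdef
  set Y : ℤ → ℝ := fun k => (z (p k)).2 with hYdef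
  have hd : ∀ (q w : ℝ × ℝ), dist q w ≤ r → |w.1 - q.1| ≤ r ∧ |w.2 - q.2| ≤ r := by
    intro q w h
    rw [Prod.dist_eq, max_le_iff, Real.dist_eq, Real.dist_eq] at h
    rw [abs_sub_comm w.1, abs_sub_comm w.2]
    exact h
  have hX' : ∀ k, |X (k + 1) - X k| ≤ 2 * r := by
    intro k
    obtain ⟨q, _, h1, h2⟩ := hq k
    have h3 := abs_le.1 (hd _ _ h1).1
    have h4 := abs_le.1 (hd _ _ h2).1
    exact abs_le.2 ⟨by simp only [hXdef]; linarith [h3.1, h3.2, h4.1, h4.2],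
      by simp only [hXdef]; linarith [h3.1, h3.2, h4.1, h4.2]⟩
  have hY' : ∀ k, |Y (k + 1) - Y k| ≤ 2 * r := by
    intro k
    obtain ⟨q, _, h1, h2⟩ := hq k
    have h3 := abs_le.1 (hd _ _ h1).2
    have h4 := abs_le.1 (hd _ _ h2).2
    exact abs_le.2 ⟨by simp only [hYdef]; linarith [h3.1, h3.2, h4.1, h4.2],
      by simp only [hYdef]; linarith [h3.1, h3.2, h4.1, h4.2]⟩
  obtain ⟨φ, hφ, hφt⟩ := lin_approx N M hN hM r hr X (fun k => by simp only [hXdef, hp1]) hX'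
  obtain ⟨ψ, hψ, hψt⟩ := lin_approx N M hN hM r hr Y (fun k => by simp only [hYdef, hp1]) hY'
  have hrn : 0 ≤ r + r * M / N := by positivity
  refine bestDist_le_of (γ := (fun t : ℝ => (φ t, ψ t)) '' Icc 0 (2 * π))
    ⟨φ, hφ, ψ, hψ, rfl⟩ (hausdorffDist_le_of_mem_dist hrn ?_ ?_)
  · intro q hqF
    obtain ⟨i, hi⟩ := mem_iUnion.1 (hcov hqF)
    obtain ⟨k₀, hk₀⟩ := hp3 i
    set k : ℤ := k₀ % (2 * M) with hk
    have hpk : p k = i := by rw [hk, periodic_emod p (2 * M) hp1, hk₀]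
    have hk0 : 0 ≤ k := Int.emod_nonneg _ (by omega)
    have hk1 : k < 2 * M := Int.emod_lt_of_pos _ (by omega)
    have hk0R : (0 : ℝ) ≤ k := by exact_mod_cast hk0
    have hk1R : (k : ℝ) ≤ 2 * M := by exact_mod_cast hk1.le
    have ht : (k : ℝ) * π / M ∈ Icc (0 : ℝ) (2 * π) := by
      refine ⟨by positivity, ?_⟩
      rw [div_le_iff₀ hMR]
      nlinarith [pi_pos]
    refine ⟨_, mem_image_of_mem _ ht, ?_⟩
    have e1 : (k : ℝ) * π / M * (M / π) = k := by field_simp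
    have h1 := hφt ((k : ℝ) * π / M)
    have h2 := hψt ((k : ℝ) * π / M)
    rw [e1, lin_int] at h1 h2
    simp only [hXdef, hYdef, hpk] at h1 h2
    have h3 := hd _ _ (mem_closedBall.1 hi)
    rw [Prod.dist_eq, Real.dist_eq, Real.dist_eq]
    refine max_le ?_ ?_
    · have h4 := abs_le.1 h1
      have h5 := abs_le.1 h3.1
      exact abs_le.2 ⟨by simp only; linarith [h4.1, h4.2, h5.1, h5.2],
        by simp only; linarith [h4.1, h4.2, h5.1, h5.2]⟩
    · have h4 := abs_le.1 h2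
      have h5 := abs_le.1 h3.2
      exact abs_le.2 ⟨by simp only; linarith [h4.1, h4.2, h5.1, h5.2],
        by simp only; linarith [h4.1, h4.2, h5.1, h5.2]⟩
  · rintro _ ⟨t, _, rfl⟩
    obtain ⟨q, hqF, h1, h2⟩ := hq ⌊t * (M / π)⌋
    refine ⟨q, hqF, ?_⟩
    have h3 := lin_near X q.1 r (t * (M / π)) (hd _ _ h1).1 (hd _ _ h2).1
    have h4 := lin_near Y q.2 r (t * (M / π)) (hd _ _ h1).2 (hd _ _ h2).2
    rw [Prod.dist_eq, Real.dist_eq, Real.dist_eq]
    refine max_le ?_ ?_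
    · have h5 := abs_le.1 (hφt t)
      have h6 := abs_le.1 h3
      exact abs_le.2 ⟨by simp only; linarith [h5.1, h5.2, h6.1, h6.2],
        by simp only; linarith [h5.1, h5.2, h6.1, h6.2]⟩
    · have h5 := abs_le.1 (hψt t)
      have h6 := abs_le.1 h4
      exact abs_le.2 ⟨by simp only; linarith [h5.1, h5.2, h6.1, h6.2],
        by simp only; linarith [h5.1, h5.2, h6.1, h6.2]⟩

end Pool.Agent.Lib.MP_2a9019_an
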