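import Pool.Agent.Lib.MP_2a9019_an.U1

/-!
The upper bound `e_n ≤ (b - a) (1/(2m) + m/(2(n+1)))` for every `m ≥ 1`, and `c₂ ≤ 1`.
-/

namespace Pool.Agent.Lib.MP_2a9019_an

open Real Set Metric Filter Topology

/-- Every point of `[a, b]` is within `r = (b - a)/(2m)` of one of the `m` points `a + (2i+1) r`. -/
theorem exists_near {a b : ℝ} (hab : a < b) (m : ℕ) (hm : 1 ≤ m) (x : ℝ) (hx : x ∈ Icc a b) :
    ∃ i : Fin m, |x - (a + (2 * ((i : ℕ) : ℝ) + 1) * ((b - a) / (2 * m)))| ≤ (b - a) / (2 * m) := by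
  have hmR : (0 : ℝ) < m := by exact_mod_cast hm
  set r := (b - a) / (2 * m) with hr
  have hba : 0 < b - a := by linarith
  have hr0 : 0 < r := by positivity
  have h2r : 2 * r * m = b - a := by rw [hr]; field_simp
  set y := (x - a) / (2 * r) with hy
  have hy0 : 0 ≤ y := div_nonneg (by linarith [hx.1]) (by positivity)
  have hxy : x - a = y * (2 * r) := by rw [hy]; field_simp
  have hym : y ≤ m := by
    rw [hy, div_le_iff₀ (by positivity)]
    linarith [hx.2]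
  have hf1 := Nat.floor_le hy0
  have hf2 := Nat.lt_floor_add_one y
  rcases Nat.lt_or_ge ⌊y⌋₊ m with h | h
  · refine ⟨⟨⌊y⌋₊, h⟩, ?_⟩
    have e : x - (a + (2 * ((⌊y⌋₊ : ℕ) : ℝ) + 1) * r) = (2 * (y - ⌊y⌋₊) - 1) * r := by
      have : x = a + y * (2 * r) := by linarith
      rw [this]; ring
    simp only
    rw [e, abs_mul, abs_of_pos hr0]
    have : |2 * (y - ⌊y⌋₊) - 1| ≤ 1 := abs_le.2 ⟨by linarith, by linarith⟩
    nlinarith
  · have h1 : (m : ℝ) ≤ ⌊y⌋₊ := by exact_mod_cast h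
    have hyem : y = m := le_antisymm hym (h1.trans hf1)
    refine ⟨⟨m - 1, by omega⟩, ?_⟩
    have e : x - (a + (2 * ((m - 1 : ℕ) : ℝ) + 1) * r) = r := by
      have : x = a + m * (2 * r) := by rw [← hyem]; linarith
      rw [this, Nat.cast_sub hm]; push_cast; ring
    simp only
    rw [e, abs_of_pos hr0]

theorem best_upper {a b : ℝ} (hab : a < b) (m N : ℕ) (hm : 1 ≤ m) (hN : 1 ≤ N)
    {F : Set (ℝ × ℝ)} (hF : F ∈ Continua a b) :
    bestDist (N - 1) F ≤ (b - a) / (2 * m) + (b - a) / (2 * m) * ((m * m : ℕ) : ℝ) / N := by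
  classical
  have hmR : (0 : ℝ) < m := by exact_mod_cast hm
  have hba : 0 < b - a := by linarith
  set r := (b - a) / (2 * m) with hr
  let c : Fin m × Fin m → ℝ × ℝ := fun q =>
    (a + (2 * ((q.1 : ℕ) : ℝ) + 1) * r, a + (2 * ((q.2 : ℕ) : ℝ) + 1) * r)
  let ι := {q : Fin m × Fin m // (closedBall (c q) r ∩ F).Nonempty}
  have hcardι : Fintype.card ι ≤ m * m := by
    refine (Fintype.card_subtype_le _).trans (le_of_eq ?_)
    rw [Fintype.card_prod, Fintype.card_fin]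
  refine cover_bound hF.2.1 (fun q : ι => c q.1) r (by positivity) ?_ (fun q => q.2) (m * m) N
    (Nat.mul_pos hm hm) hcardι hN
  intro x hx
  have hxD := hF.2.2 hx
  obtain ⟨i, hi⟩ := exists_near hab m hm x.1 hxD.1
  obtain ⟨j, hj⟩ := exists_near hab m hm x.2 hxD.2
  have hmem : x ∈ closedBall (c (i, j)) r := by
    rw [mem_closedBall, Prod.dist_eq, Real.dist_eq, Real.dist_eq]
    exact max_le hi hj
  exact mem_iUnion.2 ⟨⟨(i, j), ⟨x, hmem, hx⟩⟩, hmem⟩

theorem worst_upper {a b : ℝ} (hab : a < b) (m n : ℕ) (hm : 1 ≤ m) :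
    worstDist a b n ≤ (b - a) * (1 / (2 * m) + m / (2 * (n + 1))) := by
  have hmR : (0 : ℝ) < m := by exact_mod_cast hm
  have hnR : (0 : ℝ) < (n : ℝ) + 1 := by positivity
  refine worstDist_le hab.le fun F hF => ?_
  have h := best_upper hab m (n + 1) hm (by omega) hF
  rw [Nat.add_sub_cancel] at h
  refine h.trans (le_of_eq ?_)
  push_cast
  field_simp

theorem upper_bound {a b : ℝ} (hab : a < b) : c₂ a b ≤ 1 := by
  have hlim0 : Tendsto (fun n : ℕ => 1 + 1 / √(n : ℝ)) atTop (𝓝 (1 + 0)) :=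
    tendsto_const_nhds.add (tendsto_const_nhds.div_atTop
      (Real.tendsto_sqrt_atTop.comp tendsto_natCast_atTop_atTop))
  rw [add_zero] at hlim0
  have hlim : Tendsto (fun n : ℕ => ((1 + 1 / √(n : ℝ) : ℝ) : EReal)) atTop
      (𝓝 ((1 : ℝ) : EReal)) := (continuous_coe_real_ereal.tendsto _).comp hlim0
  rw [show (1 : EReal) = ((1 : ℝ) : EReal) from rfl, ← hlim.limsup_eq]
  refine limsup_le_limsup ?_
  filter_upwards [eventually_gt_atTop 0] with n hn
  rw [EReal.coe_le_coe_iff]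
  have hnR : (0 : ℝ) < n := by exact_mod_cast hn
  have hba : 0 < b - a := by linarith
  set s := √((n : ℝ) + 1) with hs
  have hs0 : 0 < s := Real.sqrt_pos.2 (by positivity)
  have hss : s * s = (n : ℝ) + 1 := Real.mul_self_sqrt (by positivity)
  set m : ℕ := ⌈s⌉₊ with hm
  have hm1 : s ≤ m := Nat.le_ceil _
  have hm2 : (m : ℝ) < s + 1 := Nat.ceil_lt_add_one hs0.le
  have hmpos : 1 ≤ m := Nat.ceil_pos.2 hs0
  have hmR : (0 : ℝ) < m := by exact_mod_cast hmpos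
  have hw := worst_upper hab m n hmpos
  have hsn : 0 < √(n : ℝ) := Real.sqrt_pos.2 hnR
  have hsn' : √(n : ℝ) ≤ s := Real.sqrt_le_sqrt (by linarith)
  have h1 : √(n : ℝ) * worstDist a b n / (b - a)
      ≤ √(n : ℝ) * (1 / (2 * m) + m / (2 * (n + 1))) := by
    rw [div_le_iff₀ hba]
    calc √(n : ℝ) * worstDist a b n
        ≤ √(n : ℝ) * ((b - a) * (1 / (2 * m) + m / (2 * (n + 1)))) := by gcongr
      _ = √(n : ℝ) * (1 / (2 * m) + m / (2 * (n + 1))) * (b - a) := by ring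
  refine h1.trans ?_
  have h2 : (1 : ℝ) / (2 * m) ≤ 1 / (2 * s) := by gcongr
  have h3 : (m : ℝ) / (2 * (n + 1)) ≤ (s + 1) / (2 * (s * s)) := by
    rw [hss]; gcongr
  have h4 : √(n : ℝ) * (1 / (2 * m) + m / (2 * (n + 1)))
      ≤ √(n : ℝ) * (1 / (2 * s) + (s + 1) / (2 * (s * s))) := by gcongr
  refine h4.trans ?_
  have h5 : (1 : ℝ) / (2 * s) + (s + 1) / (2 * (s * s)) = 1 / s + 1 / (2 * (s * s)) := by
    field_simp
    ring
  rw [h5]
  have h6 : √(n : ℝ) * (1 / s + 1 / (2 * (s * s))) = √(n : ℝ) / s + √(n : ℝ) / (2 * (s * s)) := by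
    field_simp
  rw [h6]
  have h7 : √(n : ℝ) / s ≤ 1 := (div_le_one hs0).2 hsn'
  have h8 : √(n : ℝ) / (2 * (s * s)) ≤ 1 / √(n : ℝ) := by
    rw [div_le_div_iff₀ (by positivity) hsn, Real.mul_self_sqrt hnR.le, hss]
    linarith
  linarith

end Pool.Agent.Lib.MP_2a9019_an
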