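import Pool.Agent.Lib.MP_2a9019_an.Defs

/-!
Row Z1. A nonzero real trigonometric polynomial of degree at most `n` has at most `2n` zeros in a
half-open period. Recipe: with `z = exp (I t)` one has `z^n * f t = P(z)`,
`P = C a0 X^n + sum_k (C ((a_k - i b_k)/2) X^(n+k) + C ((a_k + i b_k)/2) X^(n-k))`, a complex
polynomial of degree at most `2n`, nonzero because `f` is; `t ↦ exp (I t)` is injective on
`Ico x₀ (x₀ + 2π)` (`Complex.exp_eq_exp_iff_exists_int`), so `S` embeds into `P.roots.toFinset`.
-/

namespace Pool.Agent.Lib.MP_2a9019_an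

open Real Set

/-- the algebraic polynomial of a trigonometric polynomial -/
private noncomputable def trP (α β : ℕ → ℝ) (n : ℕ) : Polynomial ℂ :=
  Polynomial.C (α 0 : ℂ) * Polynomial.X ^ n + ∑ k ∈ Finset.Icc 1 n,
    (Polynomial.C (((α k : ℂ) - Complex.I * β k) / 2) * Polynomial.X ^ (n + k) +
      Polynomial.C (((α k : ℂ) + Complex.I * β k) / 2) * Polynomial.X ^ (n - k))

private lemma trP_degree (α β : ℕ → ℝ) (n : ℕ) : (trP α β n).natDegree ≤ 2 * n := by
  unfold trP
  refine (Polynomial.natDegree_add_le _ _).trans (max_le ?_ ?_)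
  · exact (Polynomial.natDegree_C_mul_X_pow_le _ _).trans (by omega)
  · refine Polynomial.natDegree_sum_le_of_forall_le _ _ fun k hk => ?_
    rw [Finset.mem_Icc] at hk
    refine (Polynomial.natDegree_add_le _ _).trans (max_le ?_ ?_)
    · exact (Polynomial.natDegree_C_mul_X_pow_le _ _).trans (by omega)
    · exact (Polynomial.natDegree_C_mul_X_pow_le _ _).trans (by omega)

private lemma trP_eval (α β : ℕ → ℝ) (n : ℕ) (t : ℝ) :
    (trP α β n).eval (Complex.exp (Complex.I * t)) = Complex.exp (Complex.I * t) ^ n *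
      ((α 0 + ∑ k ∈ Finset.Icc 1 n, (α k * cos (k * t) + β k * sin (k * t)) : ℝ) : ℂ) := by
  unfold trP
  rw [Polynomial.eval_add, Polynomial.eval_finsetSum]
  push_cast
  rw [mul_add, Finset.mul_sum]
  congr 1
  · simp
    ring
  · apply Finset.sum_congr rfl
    intro k hk
    rw [Finset.mem_Icc] at hk
    simp only [Polynomial.eval_add, Polynomial.eval_mul, Polynomial.eval_C, Polynomial.eval_pow,
      Polynomial.eval_X]
    set z := Complex.exp (Complex.I * t) with hz
    have hz0 : z ≠ 0 := Complex.exp_ne_zero _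
    have h1 : Complex.exp ((k : ℂ) * t * Complex.I) = z ^ k := by
      rw [hz, ← Complex.exp_nat_mul]
      congr 1
      ring
    have h2 : Complex.exp (-((k : ℂ) * t) * Complex.I) = (z ^ k)⁻¹ := by
      rw [← h1, ← Complex.exp_neg]
      congr 1
      ring
    have h3 : z ^ (n - k) = z ^ n * (z ^ k)⁻¹ := by
      rw [eq_mul_inv_iff_mul_eq₀ (pow_ne_zero _ hz0), ← pow_add, Nat.sub_add_cancel hk.2]
    rw [Complex.cos, Complex.sin, h1, h2, h3, pow_add]
    ring

private lemma exp_inj {x₀ s t : ℝ} (hs : s ∈ Ico x₀ (x₀ + 2 * π)) (ht : t ∈ Ico x₀ (x₀ + 2 * π))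
    (h : Complex.exp (Complex.I * s) = Complex.exp (Complex.I * t)) : s = t := by
  rw [Complex.exp_eq_exp_iff_exists_int] at h
  obtain ⟨m, hm⟩ := h
  have h1 : (s : ℂ) = t + m * (2 * π) := by
    have := mul_left_cancel₀ Complex.I_ne_zero (a := Complex.I) (b := (s : ℂ))
      (c := t + m * (2 * π)) (by rw [hm]; ring)
    exact this
  have h2 : s = t + m * (2 * π) := by exact_mod_cast h1
  have hpi := Real.pi_pos
  have hm0 : m = 0 := by
    have h3 : (m : ℝ) < 1 := by
      by_contra hc
      push Not at hc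
      nlinarith [hs.2, ht.1]
    have h4 : (-1 : ℝ) < m := by
      by_contra hc
      push Not at hc
      nlinarith [hs.1, ht.2]
    have h5 : m < 1 := by exact_mod_cast h3
    have h6 : -1 < m := by exact_mod_cast h4
    omega
  rw [h2, hm0]
  simp

theorem card_zeros_le {n : ℕ} {f : ℝ → ℝ} (hf : f ∈ TrigPoly n) (hne : ∃ t, f t ≠ 0)
    (x₀ : ℝ) (S : Finset ℝ) (hS : ∀ t ∈ S, t ∈ Ico x₀ (x₀ + 2 * π) ∧ f t = 0) :
    S.card ≤ 2 * n := by
  classical
  obtain ⟨α, β, hαβ⟩ := hf
  have hev : ∀ t : ℝ, (trP α β n).eval (Complex.exp (Complex.I * t)) =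
      Complex.exp (Complex.I * t) ^ n * (f t : ℂ) := by
    intro t
    rw [trP_eval, hαβ t]
  have hP : trP α β n ≠ 0 := by
    intro h
    obtain ⟨t, ht⟩ := hne
    have h1 := hev t
    rw [h, Polynomial.eval_zero] at h1
    have h2 : Complex.exp (Complex.I * t) ^ n ≠ 0 := pow_ne_zero _ (Complex.exp_ne_zero _)
    rcases mul_eq_zero.1 h1.symm with h3 | h3
    · exact h2 h3
    · exact ht (by exact_mod_cast h3)
  calc S.card ≤ (trP α β n).roots.toFinset.card := by
        refine Finset.card_le_card_of_injOn (fun t => Complex.exp (Complex.I * t)) ?_ ?_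
        · intro t ht
          have h1 := hev t
          rw [(hS t ht).2, Complex.ofReal_zero, mul_zero] at h1
          simp only [Finset.mem_coe, Multiset.mem_toFinset]
          exact (Polynomial.mem_roots hP).2 h1
        · intro s hs t ht h
          exact exp_inj (hS s hs).1 (hS t ht).1 h
    _ ≤ (trP α β n).roots.card := Multiset.toFinset_card_le _
    _ ≤ (trP α β n).natDegree := Polynomial.card_roots' _
    _ ≤ 2 * n := trP_degree α β n

end Pool.Agent.Lib.MP_2a9019_an
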